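import Pool.Agent.T9h90.JMGen

/-!
# The Boolean algebra
-/

namespace Pool.Agent.T9h90.JM

open Cardinal Heyting TopologicalSpace

universe u

/-! ### Sequences -/

/-- put a point in front of a sequence -/
def cons {α : Type u} (a : α) (z : ℕ → α) : ℕ → α
  | 0 => a
  | n + 1 => z n

theorem cons_zero {α : Type u} (a : α) (z : ℕ → α) : cons a z 0 = a := rfl

theorem cons_succ {α : Type u} (a : α) (z : ℕ → α) (n : ℕ) : cons a z (n + 1) = z n := rfl

theorem eq_cons {α : Type u} (y : ℕ → α) : y = cons (y 0) fun n => y (n + 1) := by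
  funext n
  cases n <;> rfl

/-- put a list in front of a sequence -/
def cat {α : Type u} : List α → (ℕ → α) → ℕ → α
  | [], z => z
  | a :: l, z => cons a (cat l z)

theorem cat_append {α : Type u} (l l' : List α) (z : ℕ → α) : cat (l ++ l') z = cat l (cat l' z) := by
  induction l with
  | nil => rfl
  | cons a l ih => rw [List.cons_append, cat, cat, ih]

theorem cat_get {α : Type u} (l : List α) (z : ℕ → α) (n : ℕ) (h : n < l.length) :
    cat l z n = l[n] := by
  induction l generalizing n with
  | nil => simp at h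
  | cons a l ih =>
    cases n with
    | zero => rfl
    | succ n => rw [cat, cons_succ, ih n (by simpa using h)]; rfl

theorem cat_add {α : Type u} (l : List α) (z : ℕ → α) (n : ℕ) :
    cat l z (l.length + n) = z n := by
  induction l with
  | nil => simp [cat]
  | cons a l ih =>
    rw [List.length_cons, show l.length + 1 + n = (l.length + n) + 1 by omega, cat, cons_succ, ih]

theorem cat_injective {α : Type u} (l : List α) : Function.Injective (cat l) := by
  intro z z' h
  funext n
  rw [← cat_add l z n, h, cat_add]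

/-- comparing two lists in front of the same sequence -/
theorem prefix_or {α : Type u} : ∀ (l l' : List α) (z z' : ℕ → α), cat l z = cat l' z' →
    l <+: l' ∨ l' <+: l := by
  intro l
  induction l with
  | nil => intro l' z z' _; exact Or.inl (List.nil_prefix)
  | cons a l ih =>
    intro l' z z' h
    cases l' with
    | nil => exact Or.inr List.nil_prefix
    | cons b l' =>
      have h0 : a = b := congrFun h 0
      subst h0
      have h1 : cat l z = cat l' z' := by
        funext n
        exact congrFun h (n + 1)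
      rcases ih l' z z' h1 with h2 | h2
      · exact Or.inl ((List.prefix_cons_inj a).2 h2)
      · exact Or.inr ((List.prefix_cons_inj a).2 h2)

/-- every sequence extends its initial segments -/
theorem exists_cat {α : Type u} (y : ℕ → α) (n : ℕ) :
    ∃ l : List α, l.length = n ∧ ∃ y', y = cat l y' := by
  induction n generalizing y with
  | zero => exact ⟨[], rfl, y, rfl⟩
  | succ n ih =>
    obtain ⟨l, hl, y', hy⟩ := ih fun n => y (n + 1)
    refine ⟨y 0 :: l, by rw [List.length_cons, hl], y', ?_⟩
    rw [cat, ← hy]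
    exact eq_cons y

/-! ### The spaces -/

variable (L : Type u)

/-- the index set of the coordinates -/
abbrev I : Type u := ℕ ⊕ ℕ × L

/-- the coordinate space -/
abbrev D : Type u := I L → Bool

/-- the sequences of points of the coordinate space -/
abbrev Z : Type u := ℕ → D L

/-- The points whose coordinates with index in the first `ℕ` are eventually `false`. -/
@[ext]
structure S : Type u where
  /-- the point -/
  pt : D L
  ev : ∃ k, ∀ n ≥ k, pt (.inl n) = false

instance : TopologicalSpace (S L) := ⊥

instance : DiscreteTopology (S L) := ⟨rfl⟩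

/-- the sequences in `S`, where `S` is discrete -/
abbrev T : Type u := ℕ → S L

/-- finite sequences in `S` followed by a sequence in `D` -/
abbrev T' : Type u := Σ _ : List (S L), Z L

variable {L}

/-- the sequence in `D` given by a sequence in `S` -/
def vals (y : T L) : Z L := fun n => (y n).pt

/-- the underlying list of points of `D` -/
def lv (l : List (S L)) : List (D L) := l.map S.pt

/-- put a list in `S` in front of a sequence in `D` -/
def catZ (l : List (S L)) (z : Z L) : Z L := cat (lv l) z

theorem catZ_append (l l' : List (S L)) (z : Z L) : catZ (l ++ l') z = catZ l (catZ l' z) := by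
  rw [catZ, lv, List.map_append, cat_append]
  rfl

theorem catZ_nil (z : Z L) : catZ [] z = z := rfl

theorem catZ_cons (s : S L) (l : List (S L)) (z : Z L) : catZ (s :: l) z = cons s.pt (catZ l z) := rfl

theorem vals_cat (l : List (S L)) (y : T L) : vals (cat l y) = catZ l (vals y) := by
  induction l with
  | nil => rfl
  | cons s l ih =>
    rw [catZ_cons, ← ih]
    funext n
    cases n <;> rfl

theorem continuous_cons (a : D L) : Continuous fun z : Z L => cons a z := by
  refine continuous_pi fun n => ?_
  cases n with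
  | zero => exact continuous_const
  | succ n => exact continuous_apply n

theorem continuous_catZ (l : List (S L)) : Continuous (catZ l) := by
  induction l with
  | nil => exact continuous_id
  | cons s l ih => exact (continuous_cons s.pt).comp ih

theorem continuous_vals : Continuous (vals : T L → Z L) := by
  refine continuous_pi fun n => ?_
  exact (continuous_of_discreteTopology (f := (S.pt : S L → D L))).comp (continuous_apply n)

/-! ### The algebra -/

/-- the defining property of the elements of the algebra -/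
def Good (p : Set (T L) × Set (T' L)) : Prop :=
  IsClopen p.1 ∧ IsClopen p.2 ∧ ∀ u : List (S L), ∃ P : Set (S L), P.Finite ∧
    (∀ s ∉ P, ∀ w z, (⟨u ++ s :: w, z⟩ : T' L) ∈ p.2 ↔ (⟨u, catZ (s :: w) z⟩ : T' L) ∈ p.2) ∧
    ∀ s ∉ P, ∀ y, cat (u ++ [s]) y ∈ p.1 ↔ (⟨u, catZ [s] (vals y)⟩ : T' L) ∈ p.2

variable (L) in
/-- The Boolean algebra. -/
def Alg : BooleanSubalgebra (Set (T L) × Set (T' L)) where
  carrier := {p | Good p}
  supClosed' := by
    intro p hp q hq
    refine ⟨hp.1.union hq.1, hp.2.1.union hq.2.1, fun u => ?_⟩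
    obtain ⟨P, hP, h1, h2⟩ := hp.2.2 u
    obtain ⟨Q, hQ, g1, g2⟩ := hq.2.2 u
    refine ⟨P ∪ Q, hP.union hQ, fun s hs w z => ?_, fun s hs y => ?_⟩
    · rw [Set.mem_union, not_or] at hs
      exact or_congr (h1 s hs.1 w z) (g1 s hs.2 w z)
    · rw [Set.mem_union, not_or] at hs
      exact or_congr (h2 s hs.1 y) (g2 s hs.2 y)
  infClosed' := by
    intro p hp q hq
    refine ⟨hp.1.inter hq.1, hp.2.1.inter hq.2.1, fun u => ?_⟩
    obtain ⟨P, hP, h1, h2⟩ := hp.2.2 u
    obtain ⟨Q, hQ, g1, g2⟩ := hq.2.2 u
    refine ⟨P ∪ Q, hP.union hQ, fun s hs w z => ?_, fun s hs y => ?_⟩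
    · rw [Set.mem_union, not_or] at hs
      exact and_congr (h1 s hs.1 w z) (g1 s hs.2 w z)
    · rw [Set.mem_union, not_or] at hs
      exact and_congr (h2 s hs.1 y) (g2 s hs.2 y)
  compl_mem' := by
    intro p hp
    refine ⟨hp.1.compl, hp.2.1.compl, fun u => ?_⟩
    obtain ⟨P, hP, h1, h2⟩ := hp.2.2 u
    exact ⟨P, hP, fun s hs w z => not_congr (h1 s hs w z), fun s hs y => not_congr (h2 s hs y)⟩
  bot_mem' := ⟨isClopen_empty, isClopen_empty, fun _ => ⟨∅, Set.finite_empty,
    fun _ _ _ _ => Iff.rfl, fun _ _ _ => Iff.rfl⟩⟩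

/-- the first part of the basic element -/
def g1 (u : List (S L)) (e : Set (Z L)) : Set (T L) := {y | ∃ y', y = cat u y' ∧ vals y' ∈ e}

/-- the second part of the basic element -/
def g2 (u : List (S L)) (e : Set (Z L)) : Set (T' L) :=
  {q | ∃ w, q.1 = u ++ w ∧ catZ w q.2 ∈ e}

theorem isClopen_g1 (u : List (S L)) {e : Set (Z L)} (he : IsClopen e) : IsClopen (g1 u e) := by
  induction u with
  | nil =>
    have : g1 ([] : List (S L)) e = vals ⁻¹' e := by
      ext y
      constructor
      · rintro ⟨y', rfl, h⟩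
        exact h
      · intro h
        exact ⟨y, rfl, h⟩
    rw [this]
    exact he.preimage continuous_vals
  | cons s u ih =>
    have : g1 (s :: u) e = (fun y : T L => y 0) ⁻¹' {s} ∩ (fun y : T L => fun n => y (n + 1)) ⁻¹'
        g1 u e := by
      ext y
      constructor
      · rintro ⟨y', rfl, h⟩
        exact ⟨rfl, y', rfl, h⟩
      · rintro ⟨h1, y', h2, h3⟩
        refine ⟨y', ?_, h3⟩
        rw [cat, ← h2, ← (show y 0 = s from h1)]
        exact eq_cons y
    rw [this]
    refine ((isClopen_discrete {s}).preimage (continuous_apply 0)).inter (ih.preimage ?_)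
    exact continuous_pi fun n => continuous_apply (n + 1)

theorem isClopen_g2 (u : List (S L)) {e : Set (Z L)} (he : IsClopen e) : IsClopen (g2 u e) := by
  have key : ∀ v : List (S L), IsClopen ((fun z : Z L => (⟨v, z⟩ : T' L)) ⁻¹' g2 u e) := by
    intro v
    by_cases hv : ∃ w, v = u ++ w
    · obtain ⟨w, rfl⟩ := hv
      have : ((fun z : Z L => (⟨u ++ w, z⟩ : T' L)) ⁻¹' g2 u e) = catZ w ⁻¹' e := by
        ext z
        constructor
        · rintro ⟨w', h1, h2⟩
          have : w = w' := List.append_cancel_left h1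
          rw [this]
          exact h2
        · intro h
          exact ⟨w, rfl, h⟩
      rw [this]
      exact he.preimage (continuous_catZ w)
    · have : ((fun z : Z L => (⟨v, z⟩ : T' L)) ⁻¹' g2 u e) = ∅ := by
        ext z
        simp only [Set.mem_preimage, Set.mem_empty_iff_false, iff_false]
        rintro ⟨w, h1, -⟩
        exact hv ⟨w, h1⟩
      rw [this]
      exact isClopen_empty
  exact ⟨isClosed_sigma_iff.2 fun v => (key v).1, isOpen_sigma_iff.2 fun v => (key v).2⟩

theorem good_g (u : List (S L)) {e : Set (Z L)} (he : IsClopen e) : Good (g1 u e, g2 u e) := by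
  refine ⟨isClopen_g1 u he, isClopen_g2 u he, fun v => ?_⟩
  by_cases hv : ∃ w, v = u ++ w
  · obtain ⟨w0, rfl⟩ := hv
    refine ⟨∅, Set.finite_empty, fun s _ w z => ?_, fun s _ y => ?_⟩
    · constructor
      · rintro ⟨w', h1, h2⟩
        simp only [List.append_assoc] at h1
        have : w0 ++ s :: w = w' := List.append_cancel_left h1
        subst this
        exact ⟨w0, rfl, by rwa [catZ_append] at h2⟩
      · rintro ⟨w', h1, h2⟩
        have : w0 = w' := List.append_cancel_left h1
        subst this
        exact ⟨w0 ++ s :: w, by simp, by rwa [catZ_append]⟩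
    · constructor
      · rintro ⟨y', h1, h2⟩
        rw [List.append_assoc, cat_append] at h1
        have := cat_injective _ h1
        rw [← this, vals_cat, catZ_append] at h2
        exact ⟨w0, rfl, h2⟩
      · rintro ⟨w', h1, h2⟩
        have : w0 = w' := List.append_cancel_left h1
        subst this
        refine ⟨cat (w0 ++ [s]) y, ?_, ?_⟩
        · rw [List.append_assoc, cat_append]
        · rw [vals_cat, catZ_append]
          exact h2
  · have hno : ∀ z, (⟨v, z⟩ : T' L) ∉ g2 u e := by
      rintro z ⟨w, h1, -⟩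
      exact hv ⟨w, h1⟩
    refine ⟨{s | s ∈ u}, u.finite_toSet, fun s hs w z => ?_, fun s hs y => ?_⟩
    · refine iff_of_false ?_ (hno _)
      rintro ⟨w', h1, -⟩
      have h2 : u <+: v ++ s :: w := ⟨w', h1.symm⟩
      have h3 : v ++ [s] <+: v ++ s :: w := ⟨w, by simp⟩
      rcases List.prefix_or_prefix_of_prefix h2 h3 with h4 | h4
      · rcases List.prefix_concat_iff.1 h4 with h5 | h5
        · exact hs (by rw [h5]; simp)
        · obtain ⟨t, ht⟩ := h5
          exact hv ⟨t, ht.symm⟩
      · obtain ⟨t, ht⟩ := h4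
        exact hs (by rw [← ht]; simp)
    · refine iff_of_false ?_ (hno _)
      rintro ⟨y', h1, -⟩
      rcases prefix_or _ _ _ _ h1 with h4 | h4
      · obtain ⟨t, ht⟩ := h4
        exact hs (by rw [← ht]; simp)
      · rcases List.prefix_concat_iff.1 h4 with h5 | h5
        · exact hs (by rw [h5]; simp)
        · obtain ⟨t, ht⟩ := h5
          exact hv ⟨t, ht.symm⟩

/-- the basic element of the algebra -/
def g (u : List (S L)) (e : Set (Z L)) (he : IsClopen e) : Alg L := ⟨(g1 u e, g2 u e), good_g u he⟩

/-! ### The two homomorphisms -/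

variable (L) in
/-- the first part -/
def fstHom : BoundedLatticeHom (Alg L) (Set (T L)) where
  toFun a := a.1.1
  map_sup' _ _ := rfl
  map_inf' _ _ := rfl
  map_top' := rfl
  map_bot' := rfl

variable (L) in
/-- the second part -/
def sndHom : BoundedLatticeHom (Alg L) (Set (T' L)) where
  toFun a := a.1.2
  map_sup' _ _ := rfl
  map_inf' _ _ := rfl
  map_top' := rfl
  map_bot' := rfl

variable (L) in
/-- the first homomorphism -/
def hom1 : BoundedLatticeHom (Alg L) (Regular (Opens (T L))) :=
  toReg (fstHom L) fun a => a.2.1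

variable (L) in
/-- the second homomorphism -/
def hom2 : BoundedLatticeHom (Alg L) (Regular (Opens (T' L))) :=
  toReg (sndHom L) fun a => a.2.2.1

/-- open sets depend locally on finitely many coordinates -/
theorem exists_coords {e : Set (Z L)} (he : IsOpen e) {z : Z L} (hz : z ∈ e) :
    ∃ F : Set (ℕ × I L), F.Finite ∧ ∀ z' : Z L, (∀ p ∈ F, z' p.1 p.2 = z p.1 p.2) → z' ∈ e := by
  obtain ⟨N, U, hU, hsub⟩ := isOpen_pi_iff.1 he z hz
  have h : ∀ n : N, ∃ J : Finset (I L), ∀ x : D L, (∀ i ∈ J, x i = z n i) → x ∈ U n := by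
    rintro ⟨n, hn⟩
    obtain ⟨J, V, hV, hsub'⟩ := isOpen_pi_iff.1 (hU n hn).1 (z n) (hU n hn).2
    refine ⟨J, fun x hx => hsub' ?_⟩
    intro i hi
    rw [hx i hi]
    exact (hV i hi).2
  choose J hJ using h
  refine ⟨⋃ n : N, {p | p.1 = n ∧ p.2 ∈ J n}, Set.finite_iUnion fun n => ?_, fun z' hz' =>
    hsub ?_⟩
  · refine Set.Finite.subset ((Set.finite_singleton (n : ℕ)).prod (J n).finite_toSet) ?_
    rintro ⟨a, b⟩ ⟨h1, h2⟩
    exact ⟨h1, h2⟩
  · intro n hn
    refine hJ ⟨n, hn⟩ (z' n) fun i hi => hz' (n, i) ?_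
    exact Set.mem_iUnion.2 ⟨⟨n, hn⟩, rfl, hi⟩

/-- The set of first coordinates in `S` of points of a nonempty open set is large. -/
theorem card_le {e : Set (Z L)} (he : IsOpen e) (hne : e.Nonempty) :
    2 ^ #L ≤ #{s : S L | ∃ z, catZ [s] z ∈ e} := by
  classical
  obtain ⟨z, hz⟩ := hne
  obtain ⟨F, hF, hFe⟩ := exists_coords he hz
  obtain ⟨K, hK⟩ : ∃ K : ℕ, (∀ n : ℕ, ((0 : ℕ), (Sum.inl n : I L)) ∈ F → n < K) ∧
      ∀ (n : ℕ) (l : L), ((0 : ℕ), (Sum.inr (n, l) : I L)) ∈ F → n < K := by
    have h1 : (Set.image (fun p : ℕ × I L => Sum.elim id (fun q : ℕ × L => q.1) p.2) F).Finite :=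
      hF.image _
    obtain ⟨K, hK⟩ := h1.bddAbove
    refine ⟨K + 1, fun n hn => ?_, fun n l hn => ?_⟩
    · exact Nat.lt_succ_of_le (hK ⟨_, hn, rfl⟩)
    · exact Nat.lt_succ_of_le (hK ⟨_, hn, rfl⟩)
  let x : (L → Bool) → D L := fun g i => match i with
    | .inl n => if n < K then z 0 (.inl n) else false
    | .inr (n, l) => if n = K then g l else z 0 (.inr (n, l))
  have hx : ∀ g, ∃ k, ∀ n ≥ k, x g (.inl n) = false := by
    intro g
    refine ⟨K, fun n hn => ?_⟩
    simp only [x]
    rw [if_neg (by omega)]
  have hmem : ∀ g, (⟨x g, hx g⟩ : S L) ∈ {s : S L | ∃ z, catZ [s] z ∈ e} := by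
    intro g
    refine ⟨fun n => z (n + 1), hFe _ ?_⟩
    rintro ⟨n, i⟩ hp
    cases n with
    | succ n => rfl
    | zero =>
      rcases i with i | ⟨i, l⟩
      · change (if i < K then z 0 (.inl i) else false) = _
        rw [if_pos (hK.1 i hp)]
      · change (if i = K then g l else z 0 (.inr (i, l))) = _
        rw [if_neg (hK.2 i l hp).ne]
  have hinj : Function.Injective fun g : L → Bool =>
      (⟨⟨x g, hx g⟩, hmem g⟩ : {s : S L | ∃ z, catZ [s] z ∈ e}) := by
    intro g g' h
    have h1 : x g = x g' := congrArg S.pt (congrArg Subtype.val h)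
    funext l
    have h2 := congrFun h1 (.inr (K, l))
    simpa [x] using h2
  calc 2 ^ #L = #(L → Bool) := by simp
    _ ≤ _ := mk_le_of_injective hinj

/-- in a nonempty open set there is a point that starts with a point of `S` outside of a small
set -/
theorem exists_start {m : Cardinal.{u}} (hL : m < 2 ^ #L) {e : Set (Z L)}
    (he : IsOpen e) (hne : e.Nonempty) {P : Set (S L)} (hP : #P ≤ m) :
    ∃ s ∉ P, ∃ z, catZ [s] z ∈ e := by
  by_contra hcon
  push Not at hcon
  have : {s : S L | ∃ z, catZ [s] z ∈ e} ⊆ P := by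
    rintro s ⟨z, hz⟩
    by_contra hs
    exact hcon s hs z hz
  have h1 := (card_le he hne).trans (mk_le_mk_of_subset this)
  exact absurd (h1.trans hP) (not_le.2 hL)

end Pool.Agent.T9h90.JM
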