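import Mathlib

/-!
# `(J, M, m)`-extensions of Boolean algebras: the definitions
-/

namespace Pool.Agent.T9h90.JM

open Cardinal

universe u

/-- `B` is a Boolean `m`-algebra: every subset of size at most `m` has a join and a meet. -/
def IsMAlgebra (m : Cardinal.{u}) (B : Type u) [BooleanAlgebra B] : Prop :=
  ∀ S : Set B, #S ≤ m → (∃ b, IsLUB S b) ∧ ∃ b, IsGLB S b

/-- The homomorphism `h` of Boolean algebras preserves all existing joins and meets of subsets of
size at most `m`. -/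
def IsMHom (m : Cardinal.{u}) {B C : Type u} [BooleanAlgebra B] [BooleanAlgebra C]
    (h : BoundedLatticeHom B C) : Prop :=
  ∀ S : Set B, #S ≤ m →
    (∀ b, IsLUB S b → IsLUB (h '' S) (h b)) ∧ ∀ b, IsGLB S b → IsGLB (h '' S) (h b)

/-- `C` is a subalgebra of `B` which is closed under joins and meets of at most `m` elements. -/
structure IsMSubalgebra (m : Cardinal.{u}) {B : Type u} [BooleanAlgebra B] (C : Set B) : Prop where
  bot : ⊥ ∈ C
  top : ⊤ ∈ C
  compl : ∀ a ∈ C, aᶜ ∈ C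
  sup : ∀ a ∈ C, ∀ b ∈ C, a ⊔ b ∈ C
  inf : ∀ a ∈ C, ∀ b ∈ C, a ⊓ b ∈ C
  join : ∀ S ⊆ C, #S ≤ m → ∀ b, IsLUB S b → b ∈ C
  meet : ∀ S ⊆ C, #S ≤ m → ∀ b, IsGLB S b → b ∈ C

/-- `G` `m`-generates `B`. -/
def MGenerates (m : Cardinal.{u}) {B : Type u} [BooleanAlgebra B] (G : Set B) : Prop :=
  ∀ C : Set B, G ⊆ C → IsMSubalgebra m C → C = Set.univ

/-- A pair `{i, B}`: a Boolean algebra `B` and a homomorphism `i : A → B`. -/
structure Ext (A : Type u) [BooleanAlgebra A] where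
  B : Type u
  [inst : BooleanAlgebra B]
  i : BoundedLatticeHom A B

attribute [instance] Ext.inst

variable {A : Type u} [BooleanAlgebra A]

/-- `J` and `M` are classes of subsets of `A` of size at most `m` whose joins (for `J`) or meets
(for `M`) exist in `A`. -/
def Admissible (m : Cardinal.{u}) (J M : Set (Set A)) : Prop :=
  (∀ S ∈ J, #S ≤ m ∧ ∃ a, IsLUB S a) ∧ ∀ S ∈ M, #S ≤ m ∧ ∃ a, IsGLB S a

/-- `E` is a `(J, M, m)`-extension of `A`. -/
def IsExtension (m : Cardinal.{u}) (J M : Set (Set A)) (E : Ext A) : Prop :=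
  IsMAlgebra m E.B ∧ Function.Injective E.i ∧
    (∀ S ∈ J, ∀ a, IsLUB S a → IsLUB (E.i '' S) (E.i a)) ∧
    (∀ S ∈ M, ∀ a, IsGLB S a → IsGLB (E.i '' S) (E.i a)) ∧ MGenerates m (Set.range E.i)

/-- `E' ≤ E`: there is an `m`-homomorphism `h : E.B → E'.B` with `E'.i = h ∘ E.i`. -/
def Below (m : Cardinal.{u}) (E' E : Ext A) : Prop :=
  ∃ h : BoundedLatticeHom E.B E'.B, IsMHom m h ∧ ∀ a, E'.i a = h (E.i a)

/-- `E` is a smallest element of the class `K` of all `(J, M, m)`-extensions. -/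
def IsSmallest (m : Cardinal.{u}) (J M : Set (Set A)) (E : Ext A) : Prop :=
  IsExtension m J M E ∧ ∀ E' : Ext A, IsExtension m J M E' → Below m E E'

/-- `E` is an `m`-completion of `A`. -/
def IsCompletion (m : Cardinal.{u}) (E : Ext A) : Prop :=
  IsMAlgebra m E.B ∧ Function.Injective E.i ∧ (∀ b : E.B, b ≠ ⊥ → ∃ a, E.i a ≠ ⊥ ∧ E.i a ≤ b) ∧
    MGenerates m (Set.range E.i)

end Pool.Agent.T9h90.JM
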