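import Pool.Agent.T9h90.JMDefs

/-!
# `m`-subalgebras of complete Boolean algebras and regular open sets
-/

namespace Pool.Agent.T9h90.JM

open Cardinal Heyting TopologicalSpace

universe u

/-! ### the subalgebra generated by a set -/

section Closure

variable (m : Cardinal.{u}) {C : Type u} [BooleanAlgebra C] (G : Set C)

theorem isMSubalgebra_inter : IsMSubalgebra m (⋂₀ {D : Set C | G ⊆ D ∧ IsMSubalgebra m D}) where
  bot := fun _ hD => hD.2.bot
  top := fun _ hD => hD.2.top
  compl := fun a ha D hD => hD.2.compl a (ha D hD)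
  sup := fun a ha b hb D hD => hD.2.sup a (ha D hD) b (hb D hD)
  inf := fun a ha b hb D hD => hD.2.inf a (ha D hD) b (hb D hD)
  join := fun S hS hm b hb D hD => hD.2.join S (fun _ hx => hS hx D hD) hm b hb
  meet := fun S hS hm b hb D hD => hD.2.meet S (fun _ hx => hS hx D hD) hm b hb

/-- The `m`-subalgebra generated by `G`. -/
def mcl : BooleanSubalgebra C where
  carrier := ⋂₀ {D : Set C | G ⊆ D ∧ IsMSubalgebra m D}
  supClosed' := fun a ha b hb => (isMSubalgebra_inter m G).sup a ha b hb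
  infClosed' := fun a ha b hb => (isMSubalgebra_inter m G).inf a ha b hb
  compl_mem' := fun ha => (isMSubalgebra_inter m G).compl _ ha
  bot_mem' := (isMSubalgebra_inter m G).bot

theorem isMSubalgebra_mcl : IsMSubalgebra m (mcl m G : Set C) := isMSubalgebra_inter m G

theorem subset_mcl : G ⊆ mcl m G := fun _ hx _ hD => hD.1 hx

variable {m G}

theorem isLUB_val {S : Set (mcl m G)} {b : mcl m G} (h : IsLUB (Subtype.val '' S) b.1) :
    IsLUB S b :=
  ⟨fun x hx => h.1 ⟨x, hx, rfl⟩, fun y hy => h.2 (by rintro _ ⟨x, hx, rfl⟩; exact hy hx)⟩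

theorem isGLB_val {S : Set (mcl m G)} {b : mcl m G} (h : IsGLB (Subtype.val '' S) b.1) :
    IsGLB S b :=
  ⟨fun x hx => h.1 ⟨x, hx, rfl⟩, fun y hy => h.2 (by rintro _ ⟨x, hx, rfl⟩; exact hy hx)⟩

theorem card_image_le {α β : Type u} {f : α → β} {S : Set α} (h : #S ≤ m) : #(f '' S) ≤ m :=
  mk_image_le.trans h

theorem val_subset (S : Set (mcl m G)) : Subtype.val '' S ⊆ (mcl m G : Set C) := by
  rintro _ ⟨x, -, rfl⟩
  exact x.2

variable (hC : ∀ S : Set C, (∃ b, IsLUB S b) ∧ ∃ b, IsGLB S b)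

include hC

theorem isMAlgebra_mcl : IsMAlgebra m (mcl m G) := by
  intro S hS
  obtain ⟨⟨b, hb⟩, ⟨c, hc⟩⟩ := hC (Subtype.val '' S)
  exact ⟨⟨⟨b, (isMSubalgebra_mcl m G).join _ (val_subset S) (card_image_le hS) b hb⟩, isLUB_val hb⟩,
    ⟨⟨c, (isMSubalgebra_mcl m G).meet _ (val_subset S) (card_image_le hS) c hc⟩, isGLB_val hc⟩⟩

theorem isLUB_val_iff {S : Set (mcl m G)} (hS : #S ≤ m) {b : mcl m G} :
    IsLUB (Subtype.val '' S) b.1 ↔ IsLUB S b := by
  refine ⟨isLUB_val, fun h => ?_⟩
  obtain ⟨c, hc⟩ := (hC (Subtype.val '' S)).1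
  have h1 : IsLUB S (⟨c, (isMSubalgebra_mcl m G).join _ (val_subset S) (card_image_le hS) c hc⟩ :
      mcl m G) := isLUB_val hc
  have h2 := h.unique h1
  rw [h2]
  exact hc

theorem isGLB_val_iff {S : Set (mcl m G)} (hS : #S ≤ m) {b : mcl m G} :
    IsGLB (Subtype.val '' S) b.1 ↔ IsGLB S b := by
  refine ⟨isGLB_val, fun h => ?_⟩
  obtain ⟨c, hc⟩ := (hC (Subtype.val '' S)).2
  have h1 : IsGLB S (⟨c, (isMSubalgebra_mcl m G).meet _ (val_subset S) (card_image_le hS) c hc⟩ :
      mcl m G) := isGLB_val hc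
  have h2 := h.unique h1
  rw [h2]
  exact hc

omit hC in
theorem generates_mcl : MGenerates m {x : mcl m G | x.1 ∈ G} := by
  intro D hD hsub
  have hD' : IsMSubalgebra m (Subtype.val '' D) := by
    refine ⟨⟨⊥, hsub.bot, rfl⟩, ⟨⊤, hsub.top, rfl⟩, ?_, ?_, ?_, ?_, ?_⟩
    · rintro _ ⟨a, ha, rfl⟩
      exact ⟨aᶜ, hsub.compl a ha, rfl⟩
    · rintro _ ⟨a, ha, rfl⟩ _ ⟨b, hb, rfl⟩
      exact ⟨a ⊔ b, hsub.sup a ha b hb, rfl⟩
    · rintro _ ⟨a, ha, rfl⟩ _ ⟨b, hb, rfl⟩
      exact ⟨a ⊓ b, hsub.inf a ha b hb, rfl⟩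
    · intro S hS hm b hb
      have hSm : S ⊆ (mcl m G : Set C) := hS.trans (val_subset D)
      have hbm := (isMSubalgebra_mcl m G).join _ hSm hm b hb
      have himg : Subtype.val '' (Subtype.val ⁻¹' S : Set (mcl m G)) = S :=
        Set.image_preimage_eq_of_subset fun x hx => ⟨⟨x, hSm hx⟩, rfl⟩
      have hcard : #(Subtype.val ⁻¹' S : Set (mcl m G)) ≤ m := by
        refine le_trans ?_ hm
        exact mk_preimage_of_injective _ _ Subtype.val_injective
      refine ⟨⟨b, hbm⟩, hsub.join (Subtype.val ⁻¹' S) ?_ hcard _ ?_, rfl⟩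
      · intro x hx
        obtain ⟨y, hy, hyx⟩ := hS hx
        rwa [← Subtype.ext hyx]
      · exact isLUB_val (by rw [himg]; exact hb)
    · intro S hS hm b hb
      have hSm : S ⊆ (mcl m G : Set C) := hS.trans (val_subset D)
      have hbm := (isMSubalgebra_mcl m G).meet _ hSm hm b hb
      have himg : Subtype.val '' (Subtype.val ⁻¹' S : Set (mcl m G)) = S :=
        Set.image_preimage_eq_of_subset fun x hx => ⟨⟨x, hSm hx⟩, rfl⟩
      have hcard : #(Subtype.val ⁻¹' S : Set (mcl m G)) ≤ m := by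
        refine le_trans ?_ hm
        exact mk_preimage_of_injective _ _ Subtype.val_injective
      refine ⟨⟨b, hbm⟩, hsub.meet (Subtype.val ⁻¹' S) ?_ hcard _ ?_, rfl⟩
      · intro x hx
        obtain ⟨y, hy, hyx⟩ := hS hx
        rwa [← Subtype.ext hyx]
      · exact isGLB_val (by rw [himg]; exact hb)
  have hG : G ⊆ Subtype.val '' D := by
    intro x hx
    exact ⟨⟨x, subset_mcl m G hx⟩, hD hx, rfl⟩
  ext x
  refine ⟨fun _ => trivial, fun _ => ?_⟩
  obtain ⟨y, hy, hyx⟩ := x.2 _ ⟨hG, hD'⟩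
  rwa [← Subtype.ext hyx]

end Closure

/-- The homomorphism into the generated `m`-subalgebra. -/
def corestrict (m : Cardinal.{u}) {A C : Type u} [BooleanAlgebra A] [BooleanAlgebra C]
    (f : BoundedLatticeHom A C) : BoundedLatticeHom A (mcl m (Set.range f)) where
  toFun a := ⟨f a, subset_mcl m _ ⟨a, rfl⟩⟩
  map_sup' a b := Subtype.ext (map_sup f a b)
  map_inf' a b := Subtype.ext (map_inf f a b)
  map_top' := Subtype.ext (map_top f)
  map_bot' := Subtype.ext (map_bot f)

/-- The extension inside a complete Boolean algebra. -/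
def extOf (m : Cardinal.{u}) {A C : Type u} [BooleanAlgebra A] [BooleanAlgebra C]
    (f : BoundedLatticeHom A C) : Ext A where
  B := mcl m (Set.range f)
  i := corestrict m f

theorem generates_extOf (m : Cardinal.{u}) {A C : Type u} [BooleanAlgebra A] [BooleanAlgebra C]
    (f : BoundedLatticeHom A C) : MGenerates m (Set.range (extOf m f).i) := by
  have : Set.range (extOf m f).i = {x : mcl m (Set.range f) | x.1 ∈ Set.range f} := by
    ext x
    constructor
    · rintro ⟨a, rfl⟩
      exact ⟨a, rfl⟩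
    · rintro ⟨a, ha⟩
      exact ⟨a, Subtype.ext ha⟩
  rw [this]
  exact generates_mcl

/-! ### regular open sets -/

section RegularOpen

variable {X : Type u} [TopologicalSpace X]

theorem regular_complete (S : Set (Regular (Opens X))) :
    (∃ b, IsLUB S b) ∧ ∃ b, IsGLB S b := by
  have hlub : ∀ S : Set (Regular (Opens X)), ∃ b, IsLUB S b := by
    intro S
    refine ⟨Regular.toRegular (sSup ((↑) '' S)), ?_⟩
    have h1 : IsLUB ((↑) '' S : Set (Opens X)) (sSup ((↑) '' S)) := isLUB_sSup _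
    constructor
    · intro x hx
      have := Regular.gi.gc.monotone_l (h1.1 ⟨x, hx, rfl⟩)
      rwa [Regular.toRegular_coe] at this
    · intro y hy
      refine (Regular.gi.gc _ _).2 (h1.2 ?_)
      rintro _ ⟨x, hx, rfl⟩
      exact hy hx
  refine ⟨hlub S, ?_⟩
  obtain ⟨b, hb⟩ := hlub (compl '' S)
  refine ⟨bᶜ, ?_, ?_⟩
  · intro x hx
    have := hb.1 ⟨x, hx, rfl⟩
    exact compl_le_of_compl_le this
  · intro y hy
    rw [le_compl_iff_le_compl]
    refine hb.2 ?_
    rintro _ ⟨x, hx, rfl⟩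
    exact compl_le_compl (hy hx)

/-- A clopen set as a regular open set. -/
def clopen (U : Set X) (hU : IsClopen U) : Regular (Opens X) :=
  ⟨⟨U, hU.isOpen⟩, by
    refine Opens.ext ?_
    rw [Opens.coe_compl_eq_interior_compl, Opens.coe_compl_eq_interior_compl]
    change interior (interior Uᶜ)ᶜ = U
    rw [hU.compl.isOpen.interior_eq, compl_compl, hU.isOpen.interior_eq]⟩

theorem coe_clopen (U : Set X) (hU : IsClopen U) :
    (((clopen U hU : Regular (Opens X)) : Opens X) : Set X) = U := rfl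

theorem le_iff_subset {a b : Regular (Opens X)} :
    a ≤ b ↔ ((a : Opens X) : Set X) ⊆ ((b : Opens X) : Set X) := Iff.rfl

theorem ne_bot_iff {a : Regular (Opens X)} : a ≠ ⊥ ↔ (((a : Opens X)) : Set X).Nonempty := by
  rw [Set.nonempty_iff_ne_empty, not_iff_not]
  constructor
  · rintro rfl
    rfl
  · intro h
    refine Regular.coe_injective (Opens.ext ?_)
    exact h

variable {A : Type u} [BooleanAlgebra A]

/-- A homomorphism into the clopen sets as a homomorphism into the regular open sets. -/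
def toReg (f : BoundedLatticeHom A (Set X)) (hf : ∀ a, IsClopen (f a)) :
    BoundedLatticeHom A (Regular (Opens X)) where
  toFun a := clopen (f a) (hf a)
  map_sup' a b := by
    refine Regular.coe_injective (Opens.ext ?_)
    rw [Regular.coe_sup, Opens.coe_compl_eq_interior_compl, Opens.coe_compl_eq_interior_compl,
      Opens.coe_sup, coe_clopen, coe_clopen, coe_clopen, map_sup]
    have h : IsClopen (f a ∪ f b) := (hf a).union (hf b)
    rw [h.compl.isOpen.interior_eq, compl_compl, h.isOpen.interior_eq]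
    rfl
  map_inf' a b := by
    refine Regular.coe_injective (Opens.ext ?_)
    change f (a ⊓ b) = f a ∩ f b
    exact map_inf f a b
  map_top' := by
    refine Regular.coe_injective (Opens.ext ?_)
    rw [coe_clopen, map_top]
    rfl
  map_bot' := by
    refine Regular.coe_injective (Opens.ext ?_)
    rw [coe_clopen, map_bot]
    rfl

theorem coe_toReg (f : BoundedLatticeHom A (Set X)) (hf : ∀ a, IsClopen (f a)) (a : A) :
    (((toReg f hf a : Regular (Opens X)) : Opens X) : Set X) = f a := rfl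

end RegularOpen

end Pool.Agent.T9h90.JM
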