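import Pool.Agent.T9h90.JMAlg

/-!
# The counterexample
-/

namespace Pool.Agent.T9h90.JM

open Cardinal Heyting TopologicalSpace

universe u

variable {L : Type u}

/-! ### Injectivity -/

theorem inf_compl_eq_bot {B : Type u} [BooleanAlgebra B] {a b : B} : a ⊓ bᶜ = ⊥ ↔ a ≤ b := by
  rw [← disjoint_iff, disjoint_compl_right_iff]

theorem le_of_map_le {A C : Type u} [BooleanAlgebra A] [BooleanAlgebra C]
    (f : BoundedLatticeHom A C) (hf : ∀ a, f a = ⊥ → a = ⊥) {a b : A} (h : f a ≤ f b) : a ≤ b := by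
  have h1 : f (a ⊓ bᶜ) = ⊥ := by
    rw [map_inf, map_compl', ← disjoint_iff, disjoint_compl_right_iff]
    exact h
  rw [← disjoint_compl_right_iff, disjoint_iff]
  exact hf _ h1

theorem injective_of_ker {A C : Type u} [BooleanAlgebra A] [BooleanAlgebra C]
    (f : BoundedLatticeHom A C) (hf : ∀ a, f a = ⊥ → a = ⊥) : Function.Injective f :=
  fun _ _ h => le_antisymm (le_of_map_le f hf h.le) (le_of_map_le f hf h.ge)

/-- the sequences in `S` are dense -/
theorem exists_vals {e : Set (Z L)} (he : IsOpen e) (hne : e.Nonempty) : ∃ y, vals y ∈ e := by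
  obtain ⟨z, hz⟩ := hne
  obtain ⟨F, hF, hFe⟩ := exists_coords he hz
  obtain ⟨K, hK⟩ : ∃ K : ℕ, ∀ (k n : ℕ), (k, (Sum.inl n : I L)) ∈ F → n < K := by
    have h1 : (Set.image (fun p : ℕ × I L => Sum.elim id (fun q : ℕ × L => q.1) p.2) F).Finite :=
      hF.image _
    obtain ⟨K, hK⟩ := h1.bddAbove
    exact ⟨K + 1, fun k n hn => Nat.lt_succ_of_le (hK ⟨_, hn, rfl⟩)⟩
  let y : T L := fun n => ⟨fun i => match i with
    | .inl k => if k < K then z n (.inl k) else false
    | .inr q => z n (.inr q), K, fun k hk => by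
      change (if k < K then z n (.inl k) else false) = false
      rw [if_neg (by omega)]⟩
  refine ⟨y, hFe _ ?_⟩
  rintro ⟨n, i⟩ hp
  rcases i with i | q
  · change (if i < K then z n (.inl i) else false) = _
    rw [if_pos (hK n i hp)]
  · rfl

/-- the blocks form a basis -/
theorem exists_block {W : Set (T L)} (hW : IsOpen W) {y : T L} (hy : y ∈ W) (N : ℕ) :
    ∃ l : List (S L), N < l.length ∧ ∀ y', cat l y' ∈ W := by
  obtain ⟨J, U, hU, hsub⟩ := isOpen_pi_iff.1 hW y hy
  obtain ⟨l, hl, y0, hy0⟩ := exists_cat y (N + 1 + J.sup id + 1)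
  refine ⟨l, by omega, fun y' => hsub fun j hj => ?_⟩
  have h1 : j ≤ J.sup id := Finset.le_sup (f := id) hj
  have h2 : cat l y' j = y j := by
    rw [hy0, cat_get l y' j (by omega), cat_get l y0 j (by omega)]
  rw [h2]
  exact (hU j hj).2

theorem exists_start' (hL : ℵ₀ < 2 ^ #L) {e : Set (Z L)}
    (he : IsOpen e) (hne : e.Nonempty) {P : Set (S L)} (hP : P.Finite) :
    ∃ s ∉ P, ∃ z, catZ [s] z ∈ e :=
  exists_start hL he hne (lt_aleph0_iff_set_finite.2 hP).le

theorem isClopen_layer (a : Alg L) (u : List (S L)) :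
    IsClopen {z : Z L | (⟨u, z⟩ : T' L) ∈ a.1.2} :=
  ⟨isClosed_sigma_iff.1 a.2.2.1.1 u, isOpen_sigma_iff.1 a.2.2.1.2 u⟩

theorem isOpen_shift {e : Set (Z L)} (he : IsOpen e) (u : List (S L)) :
    IsOpen {z : Z L | catZ u z ∈ e} := he.preimage (continuous_catZ u)

theorem isClopen_shift {e : Set (Z L)} (he : IsClopen e) (u : List (S L)) :
    IsClopen {z : Z L | catZ u z ∈ e} := he.preimage (continuous_catZ u)

theorem fst_ne (hL : ℵ₀ < 2 ^ #L) (a : Alg L) (h : a.1.2.Nonempty) : a.1.1.Nonempty := by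
  obtain ⟨⟨u, z⟩, hz⟩ := h
  obtain ⟨P, hP, -, h2⟩ := a.2.2.2 u
  obtain ⟨s, hs, z', hz'⟩ := exists_start' hL (isClopen_layer a u).2 ⟨z, hz⟩ hP
  obtain ⟨y, hy⟩ := exists_vals (isOpen_shift (isClopen_layer a u).2 [s]) ⟨z', hz'⟩
  exact ⟨_, (h2 s hs y).2 hy⟩

theorem snd_ne (hL : ℵ₀ < 2 ^ #L) (a : Alg L) (h : a.1.1.Nonempty) : a.1.2.Nonempty := by
  obtain ⟨y, hy⟩ := h
  obtain ⟨l, -, hl⟩ := exists_block a.2.1.2 hy 0
  obtain ⟨P, hP, -, h2⟩ := a.2.2.2 l
  obtain ⟨s, hs, z, -⟩ := exists_start' hL (e := (Set.univ : Set (Z L))) isOpen_univ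
    ⟨fun _ _ => false, trivial⟩ hP
  exact ⟨_, (h2 s hs y).1 (by rw [cat_append]; exact hl _)⟩

theorem ker_fst (hL : ℵ₀ < 2 ^ #L) (a : Alg L) (h : a.1.1 = ∅) : a = ⊥ := by
  have h2 : a.1.2 = ∅ := by
    by_contra hne
    exact (fst_ne hL a (Set.nonempty_iff_ne_empty.2 hne)).ne_empty h
  exact Subtype.ext (Prod.ext h h2)

theorem ker_snd (hL : ℵ₀ < 2 ^ #L) (a : Alg L) (h : a.1.2 = ∅) : a = ⊥ := by
  refine ker_fst hL a ?_
  by_contra hne
  exact (snd_ne hL a (Set.nonempty_iff_ne_empty.2 hne)).ne_empty h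

theorem ker_hom1 (hL : ℵ₀ < 2 ^ #L) (a : Alg L) (h : hom1 L a = ⊥) : a = ⊥ := by
  refine ker_fst hL a ?_
  have := congrArg (fun r : Regular (Opens (T L)) => ((r : Opens (T L)) : Set (T L))) h
  exact this

theorem ker_hom2 (hL : ℵ₀ < 2 ^ #L) (a : Alg L) (h : hom2 L a = ⊥) : a = ⊥ := by
  refine ker_snd hL a ?_
  have := congrArg (fun r : Regular (Opens (T' L)) => ((r : Opens (T' L)) : Set (T' L))) h
  exact this

/-! ### The completion -/

theorem dense_hom1 (b : Regular (Opens (T L))) (hb : b ≠ ⊥) (N : ℕ) :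
    ∃ l : List (S L), N < l.length ∧ hom1 L (g l Set.univ isClopen_univ) ≤ b := by
  obtain ⟨y, hy⟩ := ne_bot_iff.1 hb
  obtain ⟨l, hl, hl'⟩ := exists_block (b : Opens (T L)).2 hy N
  refine ⟨l, hl, ?_⟩
  rw [le_iff_subset]
  rintro _ ⟨y', rfl, -⟩
  exact hl' y'

theorem g_ne (l : List (S L)) : g l Set.univ isClopen_univ ≠ ⊥ := by
  intro h
  have h1 : g1 l (Set.univ : Set (Z L)) = ∅ := congrArg (fun a : Alg L => a.1.1) h
  have h2 : cat l (fun _ => ⟨fun _ => false, 0, fun _ _ => rfl⟩) ∈ g1 l (Set.univ : Set (Z L)) :=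
    ⟨_, rfl, trivial⟩
  rw [h1] at h2
  exact h2

theorem isCompletion (m : Cardinal.{u}) (hL : ℵ₀ < 2 ^ #L) :
    IsCompletion m (extOf m (hom1 L)) := by
  refine ⟨isMAlgebra_mcl regular_complete, ?_, ?_, generates_extOf m _⟩
  · intro a b h
    exact injective_of_ker (hom1 L) (ker_hom1 hL) (congrArg Subtype.val h)
  · intro b hb
    have hb' : b.1 ≠ ⊥ := fun h => hb (Subtype.ext h)
    obtain ⟨l, -, hl⟩ := dense_hom1 b.1 hb' 0
    refine ⟨g l Set.univ isClopen_univ, ?_, hl⟩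
    intro h
    exact g_ne l (ker_hom1 hL _ (congrArg Subtype.val h))

/-! ### The second extension preserves all existing joins and meets -/

theorem preserves_join {m : Cardinal.{u}} (hm : ℵ₀ ≤ m) (hL : m < 2 ^ #L) (Q : Set (Alg L))
    (hQ : #Q ≤ m) (a : Alg L) (ha : IsLUB Q a) : IsLUB (hom2 L '' Q) (hom2 L a) := by
  have hL' : ℵ₀ < 2 ^ #L := hm.trans_lt hL
  refine ⟨?_, ?_⟩
  · rintro _ ⟨b, hb, rfl⟩
    exact OrderHomClass.mono (hom2 L) (ha.1 hb)
  · intro x hx
    by_contra hcon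
    have h1 : hom2 L a ⊓ xᶜ ≠ ⊥ := fun h0 => hcon (inf_compl_eq_bot.1 h0)
    obtain ⟨⟨v, z⟩, hz⟩ := ne_bot_iff.1 h1
    -- the part of the open set in the layer
    set W : Set (Z L) := {z | (⟨v, z⟩ : T' L) ∈ a.1.2} ∩
      {z | (⟨v, z⟩ : T' L) ∈ (((xᶜ : Regular (Opens (T' L))) : Opens (T' L)) : Set (T' L))} with hW
    have hWo : IsOpen W := (isClopen_layer a v).2.inter
      (isOpen_sigma_iff.1 ((xᶜ : Regular (Opens (T' L))) : Opens (T' L)).2 v)
    have hWne : W.Nonempty := ⟨z, hz⟩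
    obtain ⟨e, he, hze, heW⟩ : ∃ e : Set (Z L), IsClopen e ∧ e.Nonempty ∧ e ⊆ W := by
      obtain ⟨z, hz⟩ := hWne
      obtain ⟨e, he, hze, heW⟩ := (isTopologicalBasis_isClopen (X := Z L)).exists_subset_of_mem_open
        hz hWo
      exact ⟨e, he, ⟨z, hze⟩, heW⟩
    -- disjointness from the members of `Q`
    have hdisj : ∀ b ∈ Q, ∀ z ∈ e, (⟨v, z⟩ : T' L) ∉ b.1.2 := by
      intro b hb z hz hzb
      have h2 : hom2 L b ⊓ xᶜ = ⊥ := inf_compl_eq_bot.2 (hx ⟨b, hb, rfl⟩)
      have h3 : (⟨v, z⟩ : T' L) ∈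
          (((hom2 L b ⊓ xᶜ : Regular (Opens (T' L))) : Opens (T' L)) : Set (T' L)) :=
        ⟨hzb, (heW hz).2⟩
      rw [h2] at h3
      exact h3
    -- the exceptional sets
    have hgood := fun b : Alg L => b.2.2.2 v
    choose P hP p1 p2 using hgood
    have hcard : #(P a ∪ ⋃ b : Q, P b : Set (S L)) ≤ m := by
      refine (mk_union_le _ _).trans (add_le_of_le hm ?_ ?_)
      · exact (lt_aleph0_iff_set_finite.2 (hP a)).le.trans hm
      · refine (mk_iUnion_le _).trans (mul_le_of_le hm hQ ?_)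
        refine ciSup_le' fun b => ?_
        exact (lt_aleph0_iff_set_finite.2 (hP b.1)).le.trans hm
    obtain ⟨s, hs, z1, hz1⟩ := exists_start hL he.2 hze hcard
    rw [Set.mem_union, not_or, Set.mem_iUnion, not_exists] at hs
    -- the element below `a` that is disjoint from the members of `Q`
    have hcl : IsClopen {z : Z L | catZ [s] z ∈ e} := isClopen_shift he [s]
    set c : Alg L := g (v ++ [s]) {z | catZ [s] z ∈ e} hcl with hc
    have hcne : c ≠ ⊥ := by
      intro h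
      have h2 : g2 (v ++ [s]) {z : Z L | catZ [s] z ∈ e} = ∅ := congrArg (fun a : Alg L => a.1.2) h
      have h3 : (⟨v ++ [s], z1⟩ : T' L) ∈ g2 (v ++ [s]) {z : Z L | catZ [s] z ∈ e} :=
        ⟨[], by simp, hz1⟩
      rw [h2] at h3
      exact h3
    have hca : c ≤ a := by
      refine ⟨?_, ?_⟩
      · rintro _ ⟨y, rfl, hy⟩
        exact (p2 a s hs.1 y).2 (heW hy).1
      · rintro ⟨v', z'⟩ ⟨w, hv', hz'⟩
        simp only at hv'
        subst hv'
        have h4 : catZ (s :: w) z' ∈ e := hz'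
        have h5 := (p1 a s hs.1 w z').2 (heW h4).1
        simpa using h5
    have hcb : ∀ b ∈ Q, b ≤ cᶜ := by
      intro b hb
      rw [le_compl_iff_disjoint_right, disjoint_iff]
      refine Subtype.ext (Prod.ext ?_ ?_)
      · refine Set.eq_empty_iff_forall_notMem.2 ?_
        rintro _ ⟨hy, y, rfl, hy'⟩
        exact hdisj b hb _ hy' ((p2 b s (hs.2 ⟨b, hb⟩) y).1 hy)
      · refine Set.eq_empty_iff_forall_notMem.2 ?_
        rintro ⟨v', z'⟩ ⟨hy, w, hv', hz'⟩
        simp only at hv'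
        subst hv'
        have h4 : catZ (s :: w) z' ∈ e := hz'
        refine hdisj b hb _ h4 ((p1 b s (hs.2 ⟨b, hb⟩) w z').1 ?_)
        simpa using hy
    have h6 : a ≤ cᶜ := ha.2 hcb
    exact hcne (le_bot_iff.1 ((le_inf le_rfl (hca.trans h6)).trans (inf_compl_self c).le))

theorem preserves_meet {m : Cardinal.{u}} (hm : ℵ₀ ≤ m) (hL : m < 2 ^ #L) (Q : Set (Alg L))
    (hQ : #Q ≤ m) (a : Alg L) (ha : IsGLB Q a) : IsGLB (hom2 L '' Q) (hom2 L a) := by
  have h1 : IsLUB (compl '' Q) aᶜ := by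
    refine ⟨?_, fun x hx => ?_⟩
    · rintro _ ⟨b, hb, rfl⟩
      exact compl_le_compl (ha.1 hb)
    · rw [compl_le_iff_compl_le]
      refine ha.2 fun b hb => ?_
      rw [compl_le_iff_compl_le]
      exact hx ⟨b, hb, rfl⟩
  have h2 := preserves_join hm hL _ (mk_image_le.trans hQ) _ h1
  rw [map_compl'] at h2
  refine ⟨?_, fun x hx => ?_⟩
  · rintro _ ⟨b, hb, rfl⟩
    exact OrderHomClass.mono (hom2 L) (ha.1 hb)
  · rw [← compl_le_compl_iff_le]
    refine h2.2 ?_
    rintro _ ⟨_, ⟨b, hb, rfl⟩, rfl⟩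
    rw [map_compl']
    exact compl_le_compl (hx ⟨b, hb, rfl⟩)

theorem isExtension {m : Cardinal.{u}} (hm : ℵ₀ ≤ m) (hL : m < 2 ^ #L) (J M : Set (Set (Alg L)))
    (h : Admissible m J M) : IsExtension m J M (extOf m (hom2 L)) := by
  have hL' : ℵ₀ < 2 ^ #L := hm.trans_lt hL
  refine ⟨isMAlgebra_mcl regular_complete, ?_, ?_, ?_, generates_extOf m _⟩
  · intro a b h
    exact injective_of_ker (hom2 L) (ker_hom2 hL') (congrArg Subtype.val h)
  · intro Q hQ a ha
    have h1 := preserves_join hm hL Q (h.1 Q hQ).1 a ha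
    have e : (Subtype.val : mcl m (Set.range (hom2 L)) → _) '' ((corestrict m (hom2 L)) '' Q) =
        hom2 L '' Q := by
      rw [Set.image_image]
      rfl
    have h2 : IsLUB ((Subtype.val : mcl m (Set.range (hom2 L)) → _) ''
        ((corestrict m (hom2 L)) '' Q)) (corestrict m (hom2 L) a).1 := by
      rw [e]
      exact h1
    exact isLUB_val h2
  · intro Q hQ a ha
    have h1 := preserves_meet hm hL Q (h.2 Q hQ).1 a ha
    have e : (Subtype.val : mcl m (Set.range (hom2 L)) → _) '' ((corestrict m (hom2 L)) '' Q) =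
        hom2 L '' Q := by
      rw [Set.image_image]
      rfl
    have h2 : IsGLB ((Subtype.val : mcl m (Set.range (hom2 L)) → _) ''
        ((corestrict m (hom2 L)) '' Q)) (corestrict m (hom2 L) a).1 := by
      rw [e]
      exact h1
    exact isGLB_val h2

/-! ### There is no homomorphism -/

/-- the sequences whose `N`-th member has coordinate `n` equal to `false` -/
def off (L : Type u) (N n : ℕ) : Set (Z L) := {z | z N (.inl n) = false}

theorem isClopen_off (N n : ℕ) : IsClopen (off L N n) := by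
  have : off L N n = (fun z : Z L => z N (.inl n)) ⁻¹' {false} := rfl
  rw [this]
  exact (isClopen_discrete _).preimage ((continuous_apply _).comp (continuous_apply N))

/-- the corresponding element of the algebra -/
def el (L : Type u) (N n : ℕ) : Alg L := g [] (off L N n) (isClopen_off N n)

theorem mem_el {N n : ℕ} {v : List (S L)} {z : Z L} :
    (⟨v, z⟩ : T' L) ∈ (el L N n).1.2 ↔ catZ v z ∈ off L N n := by
  constructor
  · rintro ⟨w, hw, h⟩
    simp only [List.nil_append] at hw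
    subst hw
    exact h
  · intro h
    exact ⟨v, rfl, h⟩

theorem catZ_get (l : List (S L)) (z : Z L) (n : ℕ) (h : n < l.length) :
    catZ l z n = (l[n]).pt := by
  rw [catZ, cat_get (lv l) z n (by simpa [lv] using h)]
  simp [lv]

theorem catZ_add (l : List (S L)) (z : Z L) (n : ℕ) : catZ l z (l.length + n) = z n := by
  have := cat_add (lv l) z n
  rw [lv, List.length_map] at this
  exact this

/-- blocks are below the elements -/
theorem g_le_el (N : ℕ) (l : List (S L)) (hl : N < l.length) :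
    ∃ k, ∀ n ≥ k, g l Set.univ isClopen_univ ≤ el L N n := by
  obtain ⟨k, hk⟩ := (l[N]).ev
  refine ⟨k, fun n hn => ⟨?_, ?_⟩⟩
  · rintro _ ⟨y, rfl, -⟩
    refine ⟨cat l y, rfl, ?_⟩
    rw [vals_cat]
    change catZ l (vals y) N (.inl n) = false
    rw [catZ_get l _ N hl]
    exact hk n hn
  · rintro ⟨v, z⟩ ⟨w, hv, -⟩
    simp only at hv
    subst hv
    refine mem_el.2 ?_
    change catZ (l ++ w) z N (.inl n) = false
    rw [catZ_append, catZ_get l _ N hl]
    exact hk n hn

/-- no nonempty open set of sequences is included in the complement -/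
theorem not_subset {N k : ℕ} {W : Set (Z L)} (hW : IsOpen W)
    (h : ∀ n ≥ k, ∀ z ∈ W, z N (.inl n) = false) : W = ∅ := by
  classical
  by_contra hne
  obtain ⟨z, hz⟩ := Set.nonempty_iff_ne_empty.2 hne
  obtain ⟨F, hF, hFe⟩ := exists_coords hW hz
  obtain ⟨K, hK⟩ : ∃ K : ℕ, ∀ (j n : ℕ), (j, (Sum.inl n : I L)) ∈ F → n < K := by
    have h1 : (Set.image (fun p : ℕ × I L => Sum.elim id (fun q : ℕ × L => q.1) p.2) F).Finite :=
      hF.image _
    obtain ⟨K, hK⟩ := h1.bddAbove
    exact ⟨K + 1, fun k n hn => Nat.lt_succ_of_le (hK ⟨_, hn, rfl⟩)⟩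
  let z' : Z L := fun j i => if j = N ∧ i = .inl (max K k) then true else z j i
  have hz' : z' ∈ W := by
    refine hFe z' ?_
    rintro ⟨j, i⟩ hp
    simp only [z']
    rw [if_neg]
    rintro ⟨rfl, rfl⟩
    have := hK _ _ hp
    omega
  have := h (max K k) (le_max_right _ _) z' hz'
  simp [z'] at this

variable {m : Cardinal.{u}}

/-- the countable sets of elements used -/
theorem card_range_le (hm : ℵ₀ ≤ m) {B : Type u} (f : ℕ → B) (s : Set ℕ) : #(f '' s) ≤ m := by
  have : (f '' s).Countable := (Set.to_countable s).image f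
  exact (le_aleph0_iff_set_countable.2 this).trans hm

theorem no_hom (hm : ℵ₀ ≤ m) (hL : m < 2 ^ #L) (E : Ext (Alg L)) (hE : IsCompletion m E) :
    ¬ Below m E (extOf m (hom2 L)) := by
  have hL' : ℵ₀ < 2 ^ #L := hm.trans_lt hL
  rintro ⟨h, hh, hi⟩
  let R : Ext (Alg L) := extOf m (hom2 L)
  have hRalg : IsMAlgebra m R.B := isMAlgebra_mcl regular_complete
  -- the elements
  have hG : ∀ N k : ℕ, ∃ b : R.B, IsGLB ((fun n => R.i (el L N n)) '' {n | k ≤ n}) b := fun N k =>
    (hRalg _ (card_range_le hm _ _)).2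
  choose G hG using hG
  have hg : ∀ N : ℕ, ∃ b : R.B, IsLUB (G N '' Set.univ) b := fun N =>
    (hRalg _ (card_range_le hm _ _)).1
  choose gg hgg using hg
  -- the meet of all the `gg N` is `⊥`
  have hbot : IsGLB (gg '' Set.univ) (⊥ : R.B) := by
    refine ⟨fun x _ => bot_le, fun x hx => ?_⟩
    rw [le_bot_iff]
    by_contra hne
    have hne' : x.1 ≠ ⊥ := fun h => hne (Subtype.ext h)
    obtain ⟨⟨v, z⟩, hz⟩ := ne_bot_iff.1 hne'
    -- the complement of the layer `v`
    have hcl : IsClopen {q : T' L | q.1 ≠ v} := by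
      constructor
      · refine isClosed_sigma_iff.2 fun w => ?_
        by_cases hw : w = v
        · subst hw
          simp
        · have h0 : ((fun z : Z L => (⟨w, z⟩ : T' L)) ⁻¹' {q : T' L | q.1 ≠ v}) = Set.univ := by
            ext z; simp [hw]
          change IsClosed ((fun z : Z L => (⟨w, z⟩ : T' L)) ⁻¹' {q : T' L | q.1 ≠ v})
          rw [h0]
          exact isClosed_univ
      · refine isOpen_sigma_iff.2 fun w => ?_
        by_cases hw : w = v
        · subst hw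
          simp
        · have h0 : ((fun z : Z L => (⟨w, z⟩ : T' L)) ⁻¹' {q : T' L | q.1 ≠ v}) = Set.univ := by
            ext z; simp [hw]
          change IsOpen ((fun z : Z L => (⟨w, z⟩ : T' L)) ⁻¹' {q : T' L | q.1 ≠ v})
          rw [h0]
          exact isOpen_univ
    have h1 : ∀ k, (G v.length k).1 ≤ clopen _ hcl := by
      intro k
      rw [le_iff_subset]
      rintro ⟨w, z1⟩ hz1 hwv
      simp only at hwv
      subst hwv
      have hW : IsOpen {z : Z L | (⟨w, z⟩ : T' L) ∈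
          (((G w.length k).1 : Opens (T' L)) : Set (T' L))} :=
        isOpen_sigma_iff.1 ((G w.length k).1 : Opens (T' L)).2 w
      have hW0 := not_subset (N := 0) (k := k) hW (by
        intro n hn z2 hz2
        have h3 : G w.length k ≤ R.i (el L w.length n) := (hG w.length k).1 ⟨n, hn, rfl⟩
        have h4 : (G w.length k).1 ≤ hom2 L (el L w.length n) := h3
        rw [le_iff_subset] at h4
        have h5 := mem_el.1 (h4 hz2)
        have h6 : catZ w z2 (w.length + 0) (.inl n) = false := h5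
        rwa [catZ_add] at h6)
      exact (Set.eq_empty_iff_forall_notMem.1 hW0 z1) hz1
    have h2 : (gg v.length).1 ≤ clopen _ hcl := by
      have h3 := (isLUB_val_iff regular_complete (card_range_le hm _ _)).2 (hgg v.length)
      refine h3.2 ?_
      rintro _ ⟨_, ⟨k, -, rfl⟩, rfl⟩
      exact h1 k
    have h3 : x.1 ≤ clopen _ hcl := le_trans (hx ⟨v.length, trivial, rfl⟩ : x ≤ gg v.length) h2
    rw [le_iff_subset] at h3
    exact h3 hz rfl
  -- images
  have himg : ∀ N k, IsGLB ((fun n => E.i (el L N n)) '' {n | k ≤ n}) (h (G N k)) := by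
    intro N k
    have h1 := (hh _ (card_range_le hm _ _)).2 _ (hG N k)
    rw [Set.image_image] at h1
    have h2 : (fun n => h (R.i (el L N n))) = fun n => E.i (el L N n) :=
      funext fun n => (hi _).symm
    rw [h2] at h1
    exact h1
  have htop : ∀ N, h (gg N) = ⊤ := by
    intro N
    have h1 := (hh _ (card_range_le hm _ _)).1 _ (hgg N)
    by_contra hne
    have h2 : (h (gg N))ᶜ ≠ ⊥ := fun h3 => hne (by rw [← compl_compl (h (gg N)), h3, compl_bot])
    obtain ⟨a, ha0, ha⟩ := hE.2.2.1 _ h2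
    have ha1 : a ≠ ⊥ := by
      rintro rfl
      exact ha0 (map_bot _)
    have ha2 : hom1 L a ≠ ⊥ := fun h3 => ha1 (ker_hom1 hL' a h3)
    obtain ⟨l, hl, hl'⟩ := dense_hom1 (hom1 L a) ha2 N
    have h3 : g l Set.univ isClopen_univ ≤ a := le_of_map_le (hom1 L) (ker_hom1 hL') hl'
    obtain ⟨k, hk⟩ := g_le_el N l hl
    have h4 : E.i (g l Set.univ isClopen_univ) ≤ h (G N k) := by
      refine (himg N k).2 ?_
      rintro _ ⟨n, hn, rfl⟩
      exact OrderHomClass.mono E.i (hk n hn)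
    have h5 : h (G N k) ≤ h (gg N) := h1.1 ⟨G N k, ⟨k, trivial, rfl⟩, rfl⟩
    have h6 : E.i (g l Set.univ isClopen_univ) ≤ (h (gg N))ᶜ :=
      (OrderHomClass.mono E.i h3).trans ha
    have h7 : E.i (g l Set.univ isClopen_univ) = ⊥ := by
      rw [← le_bot_iff, ← inf_compl_self (h (gg N))]
      exact le_inf (h4.trans h5) h6
    exact g_ne l (hE.2.1 (h7.trans (map_bot E.i).symm))
  have hfin := (hh _ (card_range_le hm _ _)).2 _ hbot
  have h8 : (⊤ : E.B) ≤ h ⊥ := by
    refine hfin.2 ?_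
    rintro _ ⟨_, ⟨N, -, rfl⟩, rfl⟩
    rw [htop N]
  rw [map_bot, top_le_iff] at h8
  have h9 : E.i (g ([] : List (S L)) Set.univ isClopen_univ) = E.i ⊥ := by
    rw [map_bot]
    exact le_bot_iff.1 (le_top.trans h8.ge)
  exact g_ne _ (hE.2.1 h9)

end Pool.Agent.T9h90.JM
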