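import Pool.Agent.T9h90.PMDance

/-!
# The basis given by the pigeon dance
-/

set_option autoImplicit false

open Finset Function

namespace Pool.Agent.T9h90.PM

variable {N n : ℕ}

open Classical in
/-- The positions of the pigeons of `D` from which the dance is possible. -/
noncomputable def GoodSet (D : Finset (Fin N)) : Finset (Pos N n) :=
  {f | PInj f ∧ (∀ i, f i ≠ 0 → i ∈ D) ∧ Good (List.finRange N) f}

open Classical in
/-- The injective assignments of holes to the pigeons of `D`. -/
noncomputable def Full (D : Finset (Fin N)) : Finset (Pos N n) :=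
  {f | PInj f ∧ ∀ i, f i ≠ 0 ↔ i ∈ D}

theorem mem_goodSet {D : Finset (Fin N)} {f : Pos N n} :
    f ∈ GoodSet D ↔ PInj f ∧ (∀ i, f i ≠ 0 → i ∈ D) ∧ Good (List.finRange N) f := by
  simp [GoodSet]

theorem mem_full {D : Finset (Fin N)} {f : Pos N n} :
    f ∈ Full D ↔ PInj f ∧ ∀ i, f i ≠ 0 ↔ i ∈ D := by
  simp [Full]

theorem card_occ_le {D : Finset (Fin N)} {f : Pos N n} (h : ∀ i, f i ≠ 0 → i ∈ D) :
    #(occ f) ≤ #D := by
  have : occ f ⊆ D.image f := by
    intro x hx
    obtain ⟨hx, i, rfl⟩ := mem_occ.1 hx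
    exact mem_image_of_mem _ (h i hx)
  exact (card_le_card this).trans card_image_le

theorem exists_full {D : Finset (Fin N)} (hD : 2 * #D ≤ n) {f : Pos N n} (hf : f ∈ GoodSet D) :
    ∃ g, MinD D (List.finRange N) f g ∧ g ∈ Full D := by
  obtain ⟨h1, h2, h3⟩ := mem_goodSet.1 hf
  have hcard : ((List.finRange N).filter (· ∈ D)).length ≤ #D := by
    rw [← List.toFinset_card_of_nodup ((List.nodup_finRange N).filter _)]
    refine card_le_card fun i hi => ?_
    simpa using hi
  obtain ⟨g, hg⟩ := exists_minD (D := D) (List.nodup_finRange N) h1 h1 (Z := occ f)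
    (fun h => (mem_occ.1 h).1 rfl) subset_rfl
    (by have := card_occ_le h2; omega) (fun _ _ => rfl) (fun i _ => h2 i) h3 (fun _ _ _ _ _ => le_rfl)
  refine ⟨g, hg, mem_full.2 ⟨hg.pinj h1, fun i => ⟨fun hi => ?_, fun hi => ?_⟩⟩⟩
  · by_contra hiD
    rw [hg.apply_of_notMem (Or.inr hiD)] at hi
    exact hiD (h2 i hi)
  · exact hg.ne_zero (List.nodup_finRange N) (List.mem_finRange i) hi

theorem card_goodSet_le {D : Finset (Fin N)} (hD : 2 * #D ≤ n) :
    #(GoodSet D : Finset (Pos N n)) ≤ #(Full D : Finset (Pos N n)) := by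
  classical
  choose! φ h1 h2 using fun (f : Pos N n) (hf : f ∈ GoodSet D) => exists_full hD hf
  refine card_le_card_of_injOn φ h2 ?_
  intro f hf f' hf' he
  refine (h1 f hf).inj (mem_goodSet.1 hf).1 (mem_goodSet.1 hf').1 ?_
  rw [he]
  exact h1 f' hf'

/-! ### evaluation -/

variable {F : Type*} [Field F]

/-- `b` extends `s`. -/
def Sub (s b : Pos N n) : Prop := ∀ i, s i ≠ 0 → b i = s i

open Classical in
/-- The monomial of `s`, evaluated at `b`. -/
noncomputable def ind (F : Type*) [Field F] (s b : Pos N n) : F := if Sub s b then 1 else 0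

theorem sub_update {s b : Pos N n} {i : Fin N} {h : Fin (n + 1)} (h0 : h ≠ 0) :
    Sub (update s i h) b ↔ Sub (update s i 0) b ∧ b i = h := by
  constructor
  · intro H
    refine ⟨fun j hj => ?_, ?_⟩
    · by_cases hji : j = i
      · rw [hji, update_self] at hj
        exact absurd rfl hj
      · rw [update_of_ne hji] at hj ⊢
        have := H j (by rwa [update_of_ne hji])
        rwa [update_of_ne hji] at this
    · have := H i (by rwa [update_self])
      rwa [update_self] at this
  · rintro ⟨H, hb⟩ j hj
    by_cases hji : j = i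
    · rw [hji, update_self, hb]
    · rw [update_of_ne hji] at hj ⊢
      have := H j (by rwa [update_of_ne hji])
      rwa [update_of_ne hji] at this

/-- the free holes -/
def free (f : Pos N n) : Finset (Fin (n + 1)) := {h | h ≠ 0 ∧ ∀ j, f j ≠ h}

theorem mem_free {f : Pos N n} {h : Fin (n + 1)} : h ∈ free f ↔ h ≠ 0 ∧ ∀ j, f j ≠ h := by
  simp [free]

theorem ind_identity {f b : Pos N n} (hb : PInj b) {i : Fin N} (hi : f i ≠ 0)
    (hbi : b i ≠ 0) : ind F f b = ind F (update f i 0) b - ∑ h ∈ free f, ind F (update f i h) b := by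
  classical
  have e1 : ind F f b = if Sub (update f i 0) b ∧ b i = f i then (1 : F) else 0 := by
    unfold ind
    have := sub_update (s := f) (b := b) (i := i) hi
    rw [update_eq_self] at this
    simp only [this]
  have e2 : ∑ h ∈ free f, ind F (update f i h) b =
      ∑ h ∈ free f, if Sub (update f i 0) b ∧ b i = h then (1 : F) else 0 := by
    refine sum_congr rfl fun h hh => ?_
    unfold ind
    simp only [sub_update (mem_free.1 hh).1]
  rw [e1, e2]
  by_cases hs : Sub (update f i 0) b
  swap
  · simp [ind, hs]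
  simp only [hs, true_and, ind, if_true]
  rw [sum_ite_eq]
  by_cases h1 : b i = f i
  · rw [if_pos h1, if_neg, sub_zero]
    rw [mem_free, not_and]
    intro _ h2
    exact h2 i h1.symm
  · rw [if_neg h1, if_pos, sub_self]
    rw [mem_free]
    refine ⟨hbi, fun j hj => ?_⟩
    have hji : j ≠ i := by
      rintro rfl
      exact h1 hj.symm
    have h2 := hs j (by rw [update_of_ne hji, hj]; exact hbi)
    rw [update_of_ne hji, hj] at h2
    exact hji (hb j i h2 (by rw [h2]; exact hbi))

/-- Evaluation of a combination of positions. -/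
noncomputable def ev : (Pos N n →₀ F) →ₗ[F] (Pos N n → F) :=
  Finsupp.linearCombination F fun s b => ind F s b

theorem ev_single (s : Pos N n) (c : F) (b : Pos N n) :
    ev (Finsupp.single s c) b = c * ind F s b := by
  simp [ev]

/-- The functions that agree with a combination of good positions below `t`. -/
noncomputable def Rp (F : Type*) [Field F] (t : Pos N n) : Submodule F (Pos N n → F) where
  carrier := {φ | ∃ w : Pos N n →₀ F, (∀ s ∈ w.support, PInj s ∧ (∀ i, s i ≠ 0 → t i ≠ 0) ∧
    Good (List.finRange N) s) ∧ ∀ b, PInj b → (∀ i, t i ≠ 0 → b i ≠ 0) → ev w b = φ b}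
  add_mem' := by
    classical
    rintro φ ψ ⟨w, hw, hw'⟩ ⟨v, hv, hv'⟩
    refine ⟨w + v, fun s hs => ?_, fun b hb hb' => ?_⟩
    · rcases mem_union.1 (Finsupp.support_add hs) with h | h
      · exact hw s h
      · exact hv s h
    · rw [map_add, Pi.add_apply, Pi.add_apply, hw' b hb hb', hv' b hb hb']
  zero_mem' := ⟨0, by simp, by simp⟩
  smul_mem' := by
    rintro c φ ⟨w, hw, hw'⟩
    refine ⟨c • w, fun s hs => hw s (Finsupp.support_smul hs), fun b hb hb' => ?_⟩
    rw [map_smul, Pi.smul_apply, Pi.smul_apply, hw' b hb hb']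

theorem Rp_mono {s t : Pos N n} (h : ∀ i, s i ≠ 0 → t i ≠ 0) : Rp F s ≤ Rp F t := by
  rintro φ ⟨w, hw, hw'⟩
  exact ⟨w, fun x hx => ⟨(hw x hx).1, fun i hi => h i ((hw x hx).2.1 i hi), (hw x hx).2.2⟩,
    fun b hb hb' => hw' b hb fun i hi => hb' i (h i hi)⟩

/-- equality on the relevant positions is enough -/
theorem Rp_congr {t : Pos N n} {φ ψ : Pos N n → F} (h : φ ∈ Rp F t)
    (he : ∀ b, PInj b → (∀ i, t i ≠ 0 → b i ≠ 0) → φ b = ψ b) : ψ ∈ Rp F t := by
  obtain ⟨w, hw, hw'⟩ := h
  exact ⟨w, hw, fun b hb hb' => (hw' b hb hb').trans (he b hb hb')⟩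

theorem pinj_update_zero {f : Pos N n} (hf : PInj f) (i : Fin N) : PInj (update f i 0) := by
  intro a b hab ha
  by_cases h1 : a = i
  · rw [h1, update_self] at ha
    exact absurd rfl ha
  · rw [update_of_ne h1] at ha hab
    by_cases h2 : b = i
    · rw [h2, update_self] at hab
      exact absurd hab ha
    · rw [update_of_ne h2] at hab
      exact hf a b hab ha

theorem ind_mem_aux (t : Pos N n)
    (ih : ∀ s : Pos N n, Pi.Lex (· > ·) (fun {_} => (· < ·)) s t → PInj s → ind F s ∈ Rp F s)
    (l : List (Fin N)) (hl : l.Pairwise (· < ·)) (hl' : ∀ i ∈ l, ∀ j, i ≤ j → j ∈ l)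
    (f : Pos N n) (hf : PInj f) (hft : ∀ i, f i ≠ 0 ↔ t i ≠ 0) (hfl : ∀ i ∈ l, f i = t i)
    (hg : ¬ Good l f) : ind F f ∈ Rp F t := by
  induction l generalizing f with
  | nil => exact absurd trivial hg
  | cons i l ihl =>
    rw [List.pairwise_cons] at hl
    have hl2 : ∀ a ∈ l, ∀ j, a ≤ j → j ∈ l := by
      intro a ha j hj
      rcases List.mem_cons.1 (hl' a (List.mem_cons_of_mem _ ha) j hj) with rfl | h
      · exact absurd (hl.1 a ha) (not_lt.2 hj)
      · exact h
    have hgt : ∀ j, j > i → j ∈ l := by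
      intro j hj
      rcases List.mem_cons.1 (hl' i List.mem_cons_self j hj.le) with rfl | h
      · exact absurd hj (lt_irrefl _)
      · exact h
    by_cases hi : f i = 0
    · exact ihl hl.2 hl2 f hf hft (fun j hj => hfl j (List.mem_cons_of_mem _ hj))
        fun h => hg (Or.inl ⟨hi, h⟩)
    · have hti : t i ≠ 0 := (hft i).1 hi
      have hfi : f i = t i := hfl i List.mem_cons_self
      have hmem : ind F (update f i 0) - ∑ h ∈ free f, ind F (update f i h) ∈ Rp F t := by
        refine Submodule.sub_mem _ ?_ (Submodule.sum_mem _ fun h hh => ?_)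
        · refine Rp_mono ?_ (ih _ ?_ (pinj_update_zero hf i))
          · intro j hj
            by_cases hji : j = i
            · rwa [hji]
            · rw [update_of_ne hji] at hj
              exact (hft j).1 hj
          · refine ⟨i, fun j hj => ?_, ?_⟩
            · rw [update_of_ne (ne_of_gt hj)]
              exact hfl j (List.mem_cons_of_mem _ (hgt j hj))
            · rw [update_self]
              exact Fin.pos_iff_ne_zero.2 hti
        · obtain ⟨hh0, hh⟩ := mem_free.1 hh
          have hft' : ∀ j, update f i h j ≠ 0 ↔ t j ≠ 0 := by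
            intro j
            by_cases hji : j = i
            · rw [hji, update_self]
              exact ⟨fun _ => hti, fun _ => hh0⟩
            · rw [update_of_ne hji]
              exact hft j
          rcases lt_trichotomy h (f i) with h1 | h1 | h1
          · refine Rp_mono (fun j hj => (hft' j).1 hj) (ih _ ?_ (hf.update hh))
            refine ⟨i, fun j hj => ?_, ?_⟩
            · rw [update_of_ne (ne_of_gt hj)]
              exact hfl j (List.mem_cons_of_mem _ (hgt j hj))
            · rw [update_self, ← hfi]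
              exact h1
          · exact absurd h1.symm (hh i)
          · refine ihl hl.2 hl2 _ (hf.update hh) hft' (fun j hj => ?_) fun h2 => ?_
            · rw [update_of_ne (ne_of_gt (hl.1 j hj))]
              exact hfl j (List.mem_cons_of_mem _ hj)
            · exact hg (Or.inr ⟨hi, h, h1, hh, h2⟩)
      refine Rp_congr hmem fun b hb hb' => ?_
      rw [ind_identity hb hi (hb' i hti), Pi.sub_apply, Finset.sum_apply]

theorem ind_mem (t : Pos N n) (ht : PInj t) : ind F t ∈ Rp F t := by
  have wf : WellFounded (Pi.Lex (· > ·) (fun {_} => (· < ·)) : Pos N n → Pos N n → Prop) :=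
    Pi.Lex.wellFounded (α := fun _ : Fin N => Fin (n + 1)) (· > ·) fun _ => wellFounded_lt
  induction t using wf.induction with
  | h t ih =>
    by_cases hg : Good (List.finRange N) t
    · refine ⟨Finsupp.single t 1, fun s hs => ?_, fun b _ _ => ?_⟩
      · rw [Finsupp.support_single _ one_ne_zero, mem_singleton] at hs
        subst hs
        exact ⟨ht, fun _ h => h, hg⟩
      · rw [ev_single, one_mul]
    · exact ind_mem_aux t ih (List.finRange N) (List.pairwise_lt_finRange N)
        (fun _ _ j _ => List.mem_finRange j) t ht (fun _ => Iff.rfl) (fun _ _ => rfl) hg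

/-! ### uniqueness -/

theorem unique {D : Finset (Fin N)} (hD : 2 * #D ≤ n) {w : Pos N n →₀ F}
    (hw : ∀ s ∈ w.support, s ∈ GoodSet D) (h : ∀ b ∈ Full D, ev w b = 0) : w = 0 := by
  classical
  -- the family of the evaluations
  let v : ↥(GoodSet (n := n) D) → (↥(Full (n := n) D) → F) :=
    fun s b => ind F s.1 b.1
  have hspan : ⊤ ≤ Submodule.span F (Set.range v) := by
    intro φ _
    have hφ : φ = ∑ b : ↥(Full (n := n) D), φ b • (Pi.single b (1 : F)) := by
      funext c
      simp [Finset.sum_apply, Pi.single_apply]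
    rw [hφ]
    refine Submodule.sum_mem _ fun b _ => Submodule.smul_mem _ _ ?_
    obtain ⟨hb1, hb2⟩ := mem_full.1 b.2
    obtain ⟨u, hu, hu'⟩ := ind_mem (F := F) b.1 hb1
    have e : (Pi.single b (1 : F) : ↥(Full (n := n) D) → F) =
        u.sum fun s c => c • fun c : ↥(Full (n := n) D) => ind F s c.1 := by
      funext c
      obtain ⟨hc1, hc2⟩ := mem_full.1 c.2
      have h1 := hu' c.1 hc1 fun i hi => (hc2 i).2 ((hb2 i).1 hi)
      rw [ev, Finsupp.linearCombination_apply, Finsupp.sum, Finset.sum_apply] at h1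
      rw [Finsupp.sum, Finset.sum_apply]
      simp only [Pi.smul_apply] at h1 ⊢
      rw [h1, ind]
      by_cases hbc : c = b
      · rw [hbc, Pi.single_eq_same, if_pos]
        exact fun _ _ => rfl
      · rw [Pi.single_eq_of_ne hbc, if_neg]
        intro hs
        refine hbc (Subtype.ext (funext fun i => ?_))
        by_cases hi : b.1 i = 0
        · by_contra hne
          have h2 : c.1 i ≠ 0 := fun h3 => hne (h3.trans hi.symm)
          exact (hb2 i).2 ((hc2 i).1 h2) hi
        · exact hs i hi
    rw [e]
    refine Submodule.sum_mem _ fun s hs => Submodule.smul_mem _ _ (Submodule.subset_span ?_)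
    obtain ⟨h1, h2, h3⟩ := hu s hs
    exact ⟨⟨s, mem_goodSet.2 ⟨h1, fun i hi => (hb2 i).1 (h2 i hi), h3⟩⟩, rfl⟩
  have hli : LinearIndependent F v := by
    refine linearIndependent_of_top_le_span_of_card_eq_finrank hspan ?_
    rw [Module.finrank_fintype_fun_eq_card]
    refine le_antisymm ?_ ?_
    · rw [Fintype.card_coe, Fintype.card_coe]
      exact card_goodSet_le hD
    · have h1 := finrank_range_le_card (R := F) v
      rw [Set.finrank, top_le_iff.1 hspan, finrank_top, Module.finrank_fintype_fun_eq_card] at h1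
      exact h1
  rw [Fintype.linearIndependent_iff] at hli
  have h2 := hli (fun s => w s.1) (by
    funext b
    rw [Finset.sum_apply]
    have h1 := h b.1 b.2
    rw [ev, Finsupp.linearCombination_apply, Finsupp.sum, Finset.sum_apply] at h1
    rw [Pi.zero_apply, ← h1]
    rw [Finset.sum_subset (s₂ := GoodSet D) hw]
    · exact Finset.sum_coe_sort (GoodSet D) fun x : Pos N n => (w x • fun b => ind F x b) b.1
    · intro s _ hs
      rw [Finsupp.notMem_support_iff.1 hs, zero_smul]
      rfl)
  ext s
  rw [Finsupp.zero_apply]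
  by_contra hs
  exact hs (h2 ⟨s, hw s (Finsupp.mem_support_iff.2 hs)⟩)

end Pool.Agent.T9h90.PM
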