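import Pool.Agent.T9h90.PMGraph

/-!
# The size lower bound for the twin pigeonhole graphs
-/

set_option autoImplicit false

open Finset Function MvPolynomial

namespace Pool.Agent.T9h90.PM

variable {r : ℕ} {F : Type*} [Field F]

/-! ### the axioms -/

theorem sq_ax (ρ : Rho r) (e : Ed r) : Rl (sg F ρ e ^ 2 - sg F ρ e) = 0 := by
  rw [sq]
  rcases sg_values (F := F) ρ e with h | h | ⟨p, h⟩ | ⟨j, h⟩
  · rw [h, mul_zero, sub_zero, map_zero]
  · rw [h, mul_one, sub_self, map_zero]
  · rw [h, map_sub, Rl_X_sq, sub_self]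
  · rw [h]
    have : (1 - hole F (2 * r + 1) j) * (1 - hole F (2 * r + 1) j) - (1 - hole F (2 * r + 1) j) =
        hole F (2 * r + 1) j * hole F (2 * r + 1) j - hole F (2 * r + 1) j := by ring
    rw [this, map_sub, Rl_hole_sq, sub_self]

theorem mixed (ρ : Rho r) (c : Bool) (p : Option (Hol r)) {h h' : Hol r}
    (h1 : h.2 = (ρ h.1).1 + (ρ h.1).2) (h2 : h'.2 ≠ (ρ h'.1).1 + (ρ h'.1).2) :
    sg F ρ (.inl (c, p, h)) * sg F ρ (.inl (c, p, h')) = 0 := by
  simp only [sg]
  rw [if_pos h1, if_neg h2]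
  split_ifs with h3
  · subst h3
    simp only
    rw [if_neg, zero_mul]
    intro h4
    exact h2 (by rw [← h4, sub_add_cancel])
  · rw [mul_zero]

theorem prod_pigeon (ρ : Rho r) (c : Bool) (p : Option (Hol r)) {h h' : Hol r} (hh : h ≠ h') :
    Rl (sg F ρ (.inl (c, p, h)) * sg F ρ (.inl (c, p, h'))) = 0 := by
  by_cases h1 : h.2 = (ρ h.1).1 + (ρ h.1).2
  · by_cases h2 : h'.2 = (ρ h'.1).1 + (ρ h'.1).2
    · simp only [sg]
      rw [if_pos h1, if_pos h2]
      have h3 : h.1 ≠ h'.1 := by
        intro h4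
        refine hh (Prod.ext h4 ?_)
        rw [h1, h2, h4]
      rcases p with _ | a
      · exact Rl_X_mul_X (fun h5 => h3 (congrArg Prod.snd h5)) (Or.inl rfl)
      · simp only
        split_ifs
        · exact Rl_X_mul_X (fun h5 => h3 (congrArg Prod.snd h5)) (Or.inl rfl)
        · rw [mul_zero, map_zero]
    · rw [mixed ρ c p h1 h2, map_zero]
  · by_cases h2 : h'.2 = (ρ h'.1).1 + (ρ h'.1).2
    · rw [mul_comm (sg F ρ _), mixed ρ c p h2 h1, map_zero]
    · simp only [sg]
      rw [if_neg h1, if_neg h2]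
      split_ifs with h3 h4
      · exfalso
        rw [h3, Option.some.injEq, Prod.mk.injEq] at h4
        obtain ⟨h4, h5⟩ := h4
        refine hh (Prod.ext h4 ?_)
        rw [h4] at h5
        exact sub_left_injective h5
      all_goals simp

theorem prod_hole (ρ : Rho r) (c c' : Bool) {p p' : Option (Hol r)} (h : Hol r) (hp : p ≠ p') :
    Rl (sg F ρ (.inl (c, p, h)) * sg F ρ (.inl (c', p', h))) = 0 := by
  simp only [sg]
  by_cases h1 : h.2 = (ρ h.1).1 + (ρ h.1).2
  · rw [if_pos h1, if_pos h1]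
    rcases p with _ | a <;> rcases p' with _ | a'
    · exact absurd rfl hp
    · simp only
      split_ifs
      · refine Rl_X_mul_X (fun h5 => ?_) (Or.inr rfl)
        exact (Fin.castSucc_lt_last a'.1).ne (congrArg Prod.fst h5).symm
      · rw [mul_zero, map_zero]
    · simp only
      split_ifs
      · refine Rl_X_mul_X (fun h5 => ?_) (Or.inr rfl)
        exact (Fin.castSucc_lt_last a.1).ne (congrArg Prod.fst h5)
      · rw [zero_mul, map_zero]
    · simp only
      split_ifs with h2 h3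
      · refine Rl_X_mul_X (fun h5 => ?_) (Or.inr rfl)
        have h6 : a.1 = a'.1 := Fin.castSucc_injective _ (congrArg Prod.fst h5)
        refine hp (congrArg some (Prod.ext h6 ?_))
        rw [h2, h3, h6]
      all_goals simp
  · rw [if_neg h1, if_neg h1]
    split_ifs with h2 h3
    · exact absurd (h2.trans h3.symm) hp
    all_goals simp

theorem prod_cross (ρ : Rho r) (c : Bool) (p : Option (Hol r)) (h : Hol r) :
    Rl (sg F ρ (.inl (c, p, h)) * sg F ρ (.inr h)) = 0 := by
  simp only [sg]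
  by_cases h1 : h.2 = (ρ h.1).1 + (ρ h.1).2
  · rw [if_pos h1, if_pos h1]
    have key : ∀ i : Fin (2 * r + 1), Rl (X (i, h.1) * (1 - hole F (2 * r + 1) h.1) :
        MvPolynomial (Fin (2 * r + 1) × Fin (2 * r)) F) = 0 := by
      intro i
      rw [mul_sub, mul_one, map_sub, Rl_X_mul_hole, sub_self]
    rcases p with _ | a
    · exact key _
    · simp only
      split_ifs
      · exact key _
      · rw [zero_mul, map_zero]
  · rw [if_neg h1, if_neg h1, mul_zero, map_zero]

theorem prod_ax (ρ : Rho r) {e f : Ed r} (hef : e ≠ f) {v : Vert r} (he : v ∈ toSym e)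
    (hf : v ∈ toSym f) : Rl (sg F ρ e * sg F ρ f) = 0 := by
  rcases v with ⟨c, p | h⟩
  · obtain ⟨h, rfl⟩ := mem_toSym_pigeon.1 he
    obtain ⟨h', rfl⟩ := mem_toSym_pigeon.1 hf
    exact prod_pigeon ρ c p (fun h1 => hef (by rw [h1]))
  · rcases mem_toSym_hole.1 he with ⟨p, rfl⟩ | rfl <;>
      rcases mem_toSym_hole.1 hf with ⟨p', rfl⟩ | rfl
    · exact prod_hole ρ c c h (fun h1 => hef (by rw [h1]))
    · exact prod_cross ρ c p h
    · rw [mul_comm (sg F ρ _)]
      exact prod_cross ρ c p' h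
    · exact absurd rfl hef

open Classical in
theorem vertex_ax (hr : 1 ≤ r) (ρ : Rho r) (v : Vert r) :
    Rl ((∑ e : Ed r with v ∈ toSym e, sg F ρ e) - 1) = 0 := by
  rcases v with ⟨c, p | h⟩
  · have h1 : (univ.filter fun e : Ed r => ((c, .inl p) : Vert r) ∈ toSym e) =
        univ.image (fun h : Hol r => (.inl (c, p, h) : Ed r)) := by
      ext e
      simp only [mem_filter, mem_univ, true_and, mem_image, mem_toSym_pigeon]
      exact ⟨fun ⟨h, hh⟩ => ⟨h, hh.symm⟩, fun ⟨h, hh⟩ => ⟨h, hh.symm⟩⟩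
    rw [h1, sum_image (fun a _ b _ hab => by simpa using hab)]
    exact sum_pigeon hr ρ c p
  · have h1 : (univ.filter fun e : Ed r => ((c, .inr h) : Vert r) ∈ toSym e) =
        insert (.inr h) (univ.image (fun p : Option (Hol r) => (.inl (c, p, h) : Ed r))) := by
      ext e
      simp only [mem_filter, mem_univ, true_and, mem_insert, mem_image, mem_toSym_hole]
      constructor
      · rintro (⟨p, rfl⟩ | rfl)
        · exact Or.inr ⟨p, rfl⟩
        · exact Or.inl rfl
      · rintro (rfl | ⟨p, rfl⟩)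
        · exact Or.inr rfl
        · exact Or.inl ⟨p, rfl⟩
    rw [h1, sum_insert (by simp), sum_image (fun a _ b _ hab => by simpa using hab),
      add_comm (sg F ρ (.inr h)), sum_hole, map_zero]

/-- The restriction, on the edges themselves. -/
noncomputable def sg' (F : Type*) [Field F] (ρ : Rho r) (e : (Gr r).edgeSet) :
    MvPolynomial (Fin (2 * r + 1) × Fin (2 * r)) F := sg F ρ ((edEquiv r).symm e)

theorem mem_edge (e : (Gr r).edgeSet) (v : Vert r) :
    v ∈ (e : Sym2 (Vert r)) ↔ v ∈ toSym ((edEquiv r).symm e) := by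
  rw [← edEquiv_apply, Equiv.apply_symm_apply]

theorem axioms_vanish (hr : 1 ≤ r) (ρ : Rho r) :
    ∀ q ∈ PMF F (Gr r), Rl (aeval (sg' F ρ) q) = 0 := by
  classical
  rintro q (⟨e, rfl⟩ | ⟨v, rfl⟩ | ⟨e, f, v, hef, he, hf, rfl⟩)
  · rw [map_sub, map_pow, aeval_X]
    exact sq_ax ρ _
  · rw [map_sub, map_sum, map_one]
    have := vertex_ax (F := F) hr ρ v
    convert this using 4
    simp only [aeval_X]
    refine sum_equiv (edEquiv r).symm ?_ ?_
    · intro e
      simp only [mem_filter, mem_univ, true_and]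
      exact mem_edge e v
    · intro e _
      rfl
  · rw [map_mul, aeval_X, aeval_X]
    exact prod_ax ρ (fun h => hef ((edEquiv r).symm.injective h)) ((mem_edge e v).1 he)
      ((mem_edge f v).1 hf)

/-! ### counting -/

/-- The hole of an edge. -/
def hl : Ed r → Hol r
  | .inl (_, _, h) => h
  | .inr h => h

/-- The only shift which can fix an edge. -/
def cs : Ed r → ZMod 4
  | .inl (_, some a, h) => h.2 - a.2
  | _ => 0

/-- The choices in a block which do not kill the edge. -/
def Ea (e : Ed r) : Finset (ZMod 4 × ZMod 4) :=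
  univ.filter fun us => us.1 + us.2 = (hl e).2 ∨ us.2 = cs e

theorem card_Ea (e : Ed r) : #(Ea e) ≤ 8 := by
  have : ∀ b c : ZMod 4, #(univ.filter fun us : ZMod 4 × ZMod 4 => us.1 + us.2 = b ∨ us.2 = c) ≤ 8 := by
    decide
  exact this _ _

theorem mem_Ea {ρ : Rho r} {e : Ed r} (h : sg F ρ e ≠ 0) : ρ (hl e).1 ∈ Ea e := by
  rw [Ea, mem_filter]
  refine ⟨mem_univ _, ?_⟩
  rcases e with ⟨c, p, x⟩ | x
  · simp only [sg] at h
    by_cases h1 : x.2 = (ρ x.1).1 + (ρ x.1).2
    · exact Or.inl h1.symm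
    · rw [if_neg h1] at h
      by_cases h2 : p = some (x.1, x.2 - (ρ x.1).2)
      · refine Or.inr ?_
        rw [h2]
        simp only [hl, cs]
        ring
      · rw [if_neg h2] at h
        exact absurd rfl h
  · simp only [sg] at h
    by_cases h1 : x.2 = (ρ x.1).1 + (ρ x.1).2
    · exact Or.inl h1.symm
    · rw [if_neg h1] at h
      exact absurd rfl h

/-- The blocks touched by a set of edges. -/
def Bl (A : Finset (Ed r)) : Finset (Fin (2 * r)) := A.image fun e => (hl e).1

open Classical in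
theorem card_bad {A : Finset (Ed r)} (hA : r ≤ #(Bl A)) :
    #(univ.filter fun ρ : Rho r => ∀ e ∈ A, sg F ρ e ≠ 0) ≤ 8 ^ r * 16 ^ r := by
  have hch : ∀ j ∈ Bl A, ∃ e ∈ A, (hl e).1 = j := fun j hj => mem_image.1 hj
  choose! ε hε1 hε2 using hch
  have hsub : (univ.filter fun ρ : Rho r => ∀ e ∈ A, sg F ρ e ≠ 0) ⊆
      Fintype.piFinset fun j => if j ∈ Bl A then Ea (ε j) else univ := by
    intro ρ hρ
    rw [mem_filter] at hρ
    rw [Fintype.mem_piFinset]
    intro j
    split_ifs with hj
    · have := mem_Ea (hρ.2 _ (hε1 j hj))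
      rwa [hε2 j hj] at this
    · exact mem_univ _
  refine (card_le_card hsub).trans ?_
  rw [Fintype.card_piFinset]
  have h1 : ∀ j : Fin (2 * r), #(if j ∈ Bl A then Ea (ε j) else univ) ≤
      if j ∈ Bl A then 8 else 16 := by
    intro j
    split_ifs
    · exact card_Ea _
    · simp [ZMod.card]
  refine (prod_le_prod' fun j _ => h1 j).trans ?_
  rw [prod_ite, prod_const, prod_const, filter_mem_eq_inter, univ_inter, filter_not,
    filter_mem_eq_inter, univ_inter, card_sdiff_of_subset (subset_univ _), card_univ,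
    Fintype.card_fin]
  have h2 : #(Bl A) ≤ 2 * r := (card_le_univ _).trans (by rw [Fintype.card_fin])
  obtain ⟨k, hk⟩ := Nat.exists_eq_add_of_le hA
  have h3 : 2 * r - #(Bl A) = r - k := by omega
  have h4 : r = k + (r - k) := by omega
  rw [h3, hk, pow_add, mul_assoc]
  refine Nat.mul_le_mul_left _ ?_
  conv_rhs => rw [h4, pow_add]
  exact Nat.mul_le_mul_right _ (Nat.pow_le_pow_left (by norm_num) _)

/-- The restriction keeps the hole of an edge within the block. -/
theorem sg_supported (ρ : Rho r) {e : Ed r} {H : Finset (Fin (2 * r))} (he : (hl e).1 ∈ H) :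
    sg F ρ e ∈ supported F {p : Fin (2 * r + 1) × Fin (2 * r) | p.2 ∈ H} := by
  have hX : ∀ (i : Fin (2 * r + 1)) (j : Fin (2 * r)), j ∈ H →
      (X (i, j) : MvPolynomial (Fin (2 * r + 1) × Fin (2 * r)) F) ∈
        supported F {p : Fin (2 * r + 1) × Fin (2 * r) | p.2 ∈ H} := by
    intro i j hj
    exact X_mem_supported.2 hj
  rcases e with ⟨c, p, h⟩ | h
  · simp only [sg]
    split_ifs with h1 h2
    · rcases p with _ | a
      · exact hX _ _ he
      · simp only
        split_ifs
        · exact hX _ _ he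
        · exact Subalgebra.zero_mem _
    · exact Subalgebra.one_mem _
    · exact Subalgebra.zero_mem _
  · simp only [sg]
    split_ifs
    · exact Subalgebra.sub_mem _ (Subalgebra.one_mem _)
        (Subalgebra.sum_mem _ fun i _ => hX _ _ he)
    · exact Subalgebra.zero_mem _

theorem exists_support {E : Type*} (L : List (MvPolynomial E F)) :
    ∃ M : Finset (E →₀ ℕ), #M ≤ size L ∧ ∀ p ∈ L, p.support ⊆ M := by
  classical
  induction L with
  | nil => exact ⟨∅, by simp, by simp⟩
  | cons p L ih =>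
    obtain ⟨M, h1, h2⟩ := ih
    refine ⟨p.support ∪ M, ?_, ?_⟩
    · refine (card_union_le _ _).trans ?_
      simp only [size, List.map_cons, List.sum_cons] at h1 ⊢
      omega
    · intro q hq
      rcases List.mem_cons.1 hq with rfl | hq
      · exact subset_union_left
      · exact (h2 q hq).trans subset_union_right

/-- **The lower bound.** -/
theorem lower_bound (hr : 1 ≤ r) (L : List (MvPolynomial (Gr r).edgeSet F))
    (hL : IsRefutation (PMF F (Gr r)) L) : 2 ^ r ≤ size L := by
  classical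
  by_contra hcon
  push Not at hcon
  obtain ⟨M, hM1, hM2⟩ := exists_support L
  let A : ((Gr r).edgeSet →₀ ℕ) → Finset (Ed r) := fun μ => μ.support.image (edEquiv r).symm
  -- a good restriction
  have hgood : ∃ ρ : Rho r, ∀ μ ∈ M, r ≤ #(Bl (A μ)) → ¬ ∀ e ∈ A μ, sg F ρ e ≠ 0 := by
    by_contra hno
    push Not at hno
    have h1 : (univ : Finset (Rho r)) ⊆ (M.filter fun μ => r ≤ #(Bl (A μ))).biUnion
        fun μ => univ.filter fun ρ : Rho r => ∀ e ∈ A μ, sg F ρ e ≠ 0 := by
      intro ρ _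
      obtain ⟨μ, hμ, h2, h3⟩ := hno ρ
      rw [mem_biUnion]
      exact ⟨μ, mem_filter.2 ⟨hμ, h2⟩, mem_filter.2 ⟨mem_univ _, h3⟩⟩
    have h2 := (card_le_card h1).trans (card_biUnion_le_card_mul _ _ (8 ^ r * 16 ^ r)
      fun μ hμ => card_bad (mem_filter.1 hμ).2)
    have h3 : #(M.filter fun μ => r ≤ #(Bl (A μ))) < 2 ^ r :=
      ((card_filter_le _ _).trans hM1).trans_lt hcon
    have h4 : #(univ : Finset (Rho r)) = 2 ^ r * (8 ^ r * 16 ^ r) := by
      rw [card_univ, Fintype.card_fun, Fintype.card_prod, ZMod.card, Fintype.card_fin, pow_mul,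
        ← mul_pow, ← mul_pow]
      norm_num
    rw [h4] at h2
    have h5 : 0 < 8 ^ r * 16 ^ r := by positivity
    exact absurd h2 (not_le.2 (Nat.mul_lt_mul_of_pos_right h3 h5))
  obtain ⟨ρ, hρ⟩ := hgood
  refine sound (n := 2 * r) (N := 2 * r + 1) (d := r - 1) (by omega) (sg' F ρ)
    (fun e => sg_values ρ _) (PMF F (Gr r)) (axioms_vanish hr ρ) L hL ?_
  intro p hp μ hμ
  have hμM : μ ∈ M := hM2 p hp hμ
  rw [aeval_monomial, map_one, one_mul]
  by_cases h1 : r ≤ #(Bl (A μ))
  · left
    have h2 := hρ μ hμM h1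
    push Not at h2
    obtain ⟨e, he, h3⟩ := h2
    obtain ⟨e', he', rfl⟩ := mem_image.1 he
    rw [Finsupp.prod]
    refine prod_eq_zero he' ?_
    rw [sg', h3, zero_pow (Finsupp.mem_support_iff.1 he')]
  · right
    refine ⟨Bl (A μ), by omega, ?_⟩
    rw [Finsupp.prod]
    refine Subalgebra.prod_mem _ fun e he => Subalgebra.pow_mem _ ?_ _
    refine sg_supported ρ ?_
    exact mem_image_of_mem _ (mem_image_of_mem _ he)

end Pool.Agent.T9h90.PM
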