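import Mathlib

/-!
# The pigeon dance

`N` pigeons and `n` holes. A position is a map `f : Fin N → Fin (n + 1)`; the holes are the nonzero
elements of `Fin (n + 1)`, and `f i = 0` means that the pigeon `i` has no hole.
-/

set_option autoImplicit false

open Finset Function

namespace Pool.Agent.T9h90.PM

variable {N n : ℕ}

/-- Positions of the pigeons. -/
abbrev Pos (N n : ℕ) := Fin N → Fin (n + 1)

/-- No two pigeons are in the same hole. -/
def PInj (f : Pos N n) : Prop := ∀ i j, f i = f j → f i ≠ 0 → i = j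

/-- The occupied holes. -/
def occ (f : Pos N n) : Finset (Fin (n + 1)) := {x | x ≠ 0 ∧ ∃ i, f i = x}

theorem mem_occ {f : Pos N n} {x : Fin (n + 1)} : x ∈ occ f ↔ x ≠ 0 ∧ ∃ i, f i = x := by
  simp [occ]

/-- The pigeons of the list `l` that have a hole can move, one after the other, to larger free
holes. -/
def Good : List (Fin N) → Pos N n → Prop
  | [], _ => True
  | i :: l, f => (f i = 0 ∧ Good l f) ∨
      (f i ≠ 0 ∧ ∃ x, f i < x ∧ (∀ j, f j ≠ x) ∧ Good l (update f i x))

/-- `x` is the smallest free hole above `p`. -/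
def IsNext (f : Pos N n) (p x : Fin (n + 1)) : Prop :=
  p < x ∧ (∀ j, f j ≠ x) ∧ ∀ y, p < y → y < x → ∃ j, f j = y

/-- The minimal dance, in which the pigeons of `D` without a hole move, too. -/
def MinD (D : Finset (Fin N)) : List (Fin N) → Pos N n → Pos N n → Prop
  | [], f, g => f = g
  | i :: l, f, g => (i ∈ D ∧ ∃ x, IsNext f (f i) x ∧ MinD D l (update f i x) g) ∨
      (i ∉ D ∧ MinD D l f g)

theorem PInj.update {f : Pos N n} (hf : PInj f) {i : Fin N} {x : Fin (n + 1)}
    (hx : ∀ j, f j ≠ x) : PInj (update f i x) := by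
  intro a b hab ha
  by_cases h1 : a = i
  · by_cases h2 : b = i
    · rw [h1, h2]
    · rw [h1, update_self, update_of_ne h2] at hab
      exact absurd hab.symm (hx b)
  · by_cases h2 : b = i
    · rw [h2, update_self, update_of_ne h1] at hab
      exact absurd hab (hx a)
    · rw [update_of_ne h1, update_of_ne h2] at hab
      rw [update_of_ne h1] at ha
      exact hf a b hab ha

theorem IsNext.ne_zero {f : Pos N n} {p x : Fin (n + 1)} (h : IsNext f p x) : x ≠ 0 :=
  (lt_of_le_of_lt (Fin.zero_le p) h.1).ne'

/-- the minimal dance is injective -/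
theorem MinD.inj {D : Finset (Fin N)} {l : List (Fin N)} {f f' g : Pos N n} (hf : PInj f)
    (hf' : PInj f') (h : MinD D l f g) (h' : MinD D l f' g) : f = f' := by
  induction l generalizing f f' with
  | nil => exact h.trans h'.symm
  | cons i l ih =>
    rcases h with ⟨hi, x, hx, h⟩ | ⟨hi, h⟩ <;> rcases h' with ⟨hi', x', hx', h'⟩ | ⟨hi', h'⟩
    · have e := ih (hf.update hx.2.1) (hf'.update hx'.2.1) h h'
      have e1 : x = x' := by simpa using congrFun e i
      subst e1
      have e2 : ∀ j, j ≠ i → f j = f' j := fun j hj => by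
        simpa [update_of_ne hj] using congrFun e j
      have key : ∀ (f f' : Pos N n), PInj f' → IsNext f (f i) x → IsNext f' (f' i) x →
          (∀ j, j ≠ i → f j = f' j) → ¬ f i < f' i := by
        intro f f' hf' hx hx' e2 hlt
        obtain ⟨j, hj⟩ := hx.2.2 _ hlt hx'.1
        have hji : j ≠ i := by
          rintro rfl
          exact hlt.ne hj
        have h1 : f' j = f' i := by rw [← e2 j hji, hj]
        have h2 : f' j ≠ 0 := by
          rw [h1]
          exact (lt_of_le_of_lt (Fin.zero_le _) hlt).ne'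
        exact hji (hf' j i h1 h2)
      have e3 : f i = f' i := by
        rcases lt_trichotomy (f i) (f' i) with h3 | h3 | h3
        · exact absurd h3 (key f f' hf' hx hx' e2)
        · exact h3
        · exact absurd h3 (key f' f hf hx' hx fun j hj => (e2 j hj).symm)
      funext j
      by_cases hj : j = i
      · rw [hj, e3]
      · exact e2 j hj
    · exact absurd hi hi'
    · exact absurd hi' hi
    · exact ih hf hf' h h'

theorem MinD.pinj {D : Finset (Fin N)} {l : List (Fin N)} {f g : Pos N n} (hf : PInj f)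
    (h : MinD D l f g) : PInj g := by
  induction l generalizing f with
  | nil => exact h ▸ hf
  | cons i l ih =>
    rcases h with ⟨hi, x, hx, h⟩ | ⟨hi, h⟩
    · exact ih (hf.update hx.2.1) h
    · exact ih hf h

/-- positions of pigeons which do not move -/
theorem MinD.apply_of_notMem {D : Finset (Fin N)} {l : List (Fin N)} {f g : Pos N n}
    (h : MinD D l f g) {j : Fin N} (hj : j ∉ l ∨ j ∉ D) : g j = f j := by
  induction l generalizing f with
  | nil => rw [show f = g from h]
  | cons i l ih =>
    have hj' : j ∉ l ∨ j ∉ D := hj.imp (fun h1 h2 => h1 (List.mem_cons_of_mem _ h2)) id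
    rcases h with ⟨hi, x, hx, h⟩ | ⟨hi, h⟩
    · rw [ih h hj', update_of_ne]
      rintro rfl
      rcases hj with hj | hj
      · exact hj List.mem_cons_self
      · exact hj hi
    · exact ih h hj'

theorem MinD.ne_zero {D : Finset (Fin N)} {l : List (Fin N)} (hl : l.Nodup) {f g : Pos N n}
    (h : MinD D l f g) {j : Fin N} (hj : j ∈ l) (hD : j ∈ D) : g j ≠ 0 := by
  induction l generalizing f with
  | nil => exact absurd hj List.not_mem_nil
  | cons i l ih =>
    rw [List.nodup_cons] at hl
    rcases h with ⟨hi, x, hx, h⟩ | ⟨hi, h⟩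
    · rcases List.mem_cons.1 hj with rfl | hj
      · rw [h.apply_of_notMem (Or.inl hl.1), update_self]
        exact hx.ne_zero
      · exact ih hl.2 h hj
    · rcases List.mem_cons.1 hj with rfl | hj
      · exact absurd hD hi
      · exact ih hl.2 h hj

/-! ### the minimal dance exists -/

theorem occ_update {f : Pos N n} (hf : PInj f) {i : Fin N} {x : Fin (n + 1)} (hx0 : x ≠ 0)
    (hx : ∀ j, f j ≠ x) : occ (update f i x) = insert x ((occ f).erase (f i)) := by
  ext y
  rw [mem_occ, mem_insert, mem_erase, mem_occ]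
  constructor
  · rintro ⟨hy, j, hj⟩
    by_cases h : j = i
    · rw [h, update_self] at hj
      exact Or.inl hj.symm
    · rw [update_of_ne h] at hj
      refine Or.inr ⟨?_, hy, j, hj⟩
      rintro rfl
      exact h (hf j i hj (by rwa [hj]))
  · rintro (rfl | ⟨h1, h2, j, hj⟩)
    · exact ⟨hx0, i, update_self ..⟩
    · refine ⟨h2, j, ?_⟩
      rw [update_of_ne, hj]
      rintro rfl
      exact h1 hj.symm

/-- the number of occupied holes above `h` -/
def cnt (O : Finset (Fin (n + 1))) (h : Fin (n + 1)) : ℕ := #{y ∈ O | h < y}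

theorem cnt_move {O : Finset (Fin (n + 1))} {p x h : Fin (n + 1)} (hp : p ∈ O) (hx : x ∉ O)
    (hpx : p < x) : cnt (insert x (O.erase p)) h = cnt O h + if p ≤ h ∧ h < x then 1 else 0 := by
  have hx' : x ∉ O.erase p := fun h => hx (mem_of_mem_erase h)
  unfold cnt
  rw [filter_insert]
  have e : (O.erase p).filter (fun y => h < y) = ((O.filter (fun y => h < y)).erase p) := by
    ext y; simp only [mem_filter, mem_erase]; tauto
  rw [e]
  by_cases h1 : h < x
  · rw [if_pos h1, card_insert_of_notMem (by simp [hx])]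
    by_cases h2 : p ≤ h
    · rw [if_pos ⟨h2, h1⟩, erase_eq_of_notMem (by simp [h2.not_gt])]
    · rw [if_neg (fun h3 => h2 h3.1), card_erase_of_mem (by simp [hp, not_le.1 h2])]
      have : 0 < #{y ∈ O | h < y} := card_pos.2 ⟨p, by simp [hp, not_le.1 h2]⟩
      omega
  · rw [if_neg h1, if_neg (fun h3 => h1 h3.2), erase_eq_of_notMem, add_zero]
    simp only [mem_filter, not_and]
    intro _ h3
    exact h1 (h3.trans hpx)

theorem cnt_add {O : Finset (Fin (n + 1))} {x h : Fin (n + 1)} (hh : x ≤ h) :
    cnt (insert x O) h = cnt O h := by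
  unfold cnt
  rw [filter_insert, if_neg (not_lt.2 hh)]

/-- splitting the count -/
theorem cnt_split {O : Finset (Fin (n + 1))} {p h : Fin (n + 1)} (hph : p ≤ h) :
    cnt O p = #{y ∈ O | p < y ∧ y ≤ h} + cnt O h := by
  unfold cnt
  rw [← card_union_of_disjoint]
  · congr 1
    ext y
    simp only [mem_filter, mem_union]
    constructor
    · rintro ⟨h1, h2⟩
      rcases le_or_gt y h with h3 | h3
      · exact Or.inl ⟨h1, h2, h3⟩
      · exact Or.inr ⟨h1, h3⟩
    · rintro (⟨h1, h2, -⟩ | ⟨h1, h2⟩)
      · exact ⟨h1, h2⟩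
      · exact ⟨h1, lt_of_le_of_lt hph h2⟩
  · rw [disjoint_left]
    intro y h1 h2
    simp only [mem_filter] at h1 h2
    exact absurd h1.2.2 (not_le.2 h2.2)

theorem exists_minD {D : Finset (Fin N)} {l : List (Fin N)} (hl : l.Nodup) {f e : Pos N n}
    (hf : PInj f) (he : PInj e) {Z : Finset (Fin (n + 1))} (hZ0 : 0 ∉ Z) (hZ : occ f ⊆ Z)
    (hcard : #Z + (l.filter (· ∈ D)).length ≤ n) (hfe : ∀ i ∈ l, e i = f i)
    (hD : ∀ i ∈ l, f i ≠ 0 → i ∈ D) (hgood : Good l e)
    (hinv : ∀ θ, θ ≠ 0 → θ ∉ Z → ∀ h, θ ≤ h → cnt (occ f) h ≤ cnt (occ e) h) :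
    ∃ g, MinD D l f g := by
  classical
  induction l generalizing f e Z with
  | nil => exact ⟨f, rfl⟩
  | cons i l ih =>
    rw [List.nodup_cons] at hl
    have hei : e i = f i := hfe i List.mem_cons_self
    have hfe' : ∀ j ∈ l, e j = f j := fun j hj => hfe j (List.mem_cons_of_mem _ hj)
    have hD' : ∀ j ∈ l, f j ≠ 0 → j ∈ D := fun j hj => hD j (List.mem_cons_of_mem _ hj)
    by_cases hi : i ∈ D
    swap
    · have hfi : f i = 0 := by
        by_contra h
        exact hi (hD i List.mem_cons_self h)
      rw [List.filter_cons_of_neg (by simpa using hi)] at hcard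
      have hg : Good l e := by
        rcases hgood with ⟨-, h⟩ | ⟨h, -⟩
        · exact h
        · exact absurd (hei.trans hfi) h
      obtain ⟨g, hg⟩ := ih hl.2 hf he hZ0 hZ hcard hfe' hD' hg hinv
      exact ⟨g, Or.inr ⟨hi, hg⟩⟩
    rw [List.filter_cons_of_pos (by simpa using hi), List.length_cons] at hcard
    -- a hole which has never been occupied
    obtain ⟨θ, hθ0, hθ⟩ : ∃ θ, θ ≠ 0 ∧ θ ∉ Z := by
      by_contra hcon
      push Not at hcon
      have h1 : (univ : Finset (Fin (n + 1))) ⊆ insert 0 Z := by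
        intro θ _
        by_cases h : θ = 0
        · rw [h]; exact mem_insert_self _ _
        · exact mem_insert_of_mem (hcon θ h)
      have h2 := card_le_card h1
      rw [card_univ, Fintype.card_fin, card_insert_of_notMem hZ0] at h2
      omega
    have hθf : ∀ j, f j ≠ θ := fun j hj => hθ (hZ (mem_occ.2 ⟨hθ0, j, hj⟩))
    -- the next hole
    obtain ⟨x, hx⟩ : ∃ x, IsNext f (f i) x := by
      have hex : ∃ x, f i < x ∧ ∀ j, f j ≠ x := by
        by_contra hcon
        push Not at hcon
        by_cases hfi : f i = 0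
        · obtain ⟨j, hj⟩ := hcon θ (by rw [hfi]; exact Fin.pos_iff_ne_zero.2 hθ0)
          exact hθf j hj
        · have hle : θ ≤ f i := by
            by_contra h
            obtain ⟨j, hj⟩ := hcon θ (not_le.1 h)
            exact hθf j hj
          have h1 := hinv θ hθ0 hθ (f i) hle
          rcases hgood with ⟨h, -⟩ | ⟨-, y, hy, hye, -⟩
          · exact hfi (hei.symm.trans h)
          · rw [hei] at hy
            have h2 : ({z ∈ occ e | f i < z} : Finset _) ⊂ {z ∈ occ f | f i < z} := by
              refine ⟨?_, ?_⟩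
              · intro z hz
                rw [mem_filter] at hz ⊢
                obtain ⟨j, hj⟩ := hcon z hz.2
                exact ⟨mem_occ.2 ⟨(mem_occ.1 hz.1).1, j, hj⟩, hz.2⟩
              · intro hsub
                obtain ⟨j, hj⟩ := hcon y hy
                have h3 : y ∈ ({z ∈ occ f | f i < z} : Finset _) := by
                  rw [mem_filter, mem_occ]
                  exact ⟨⟨(lt_of_le_of_lt (Fin.zero_le _) hy).ne', j, hj⟩, hy⟩
                have h4 := hsub h3
                rw [mem_filter, mem_occ] at h4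
                obtain ⟨⟨-, j, hj⟩, -⟩ := h4
                exact hye j hj
            have h3 := card_lt_card h2
            unfold cnt at h1
            omega
      have hne : (univ.filter fun x : Fin (n + 1) => f i < x ∧ ∀ j, f j ≠ x).Nonempty := by
        obtain ⟨x, hx⟩ := hex
        exact ⟨x, by simpa using hx⟩
      refine ⟨(univ.filter fun x : Fin (n + 1) => f i < x ∧ ∀ j, f j ≠ x).min' hne, ?_⟩
      have h1 := min'_mem _ hne
      rw [mem_filter] at h1
      refine ⟨h1.2.1, h1.2.2, fun y hy1 hy2 => ?_⟩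
      by_contra h
      push Not at h
      exact absurd (min'_le _ y (by simpa using ⟨hy1, h⟩)) (not_le.2 hy2)
    have hx0 := hx.ne_zero
    have hxO : x ∉ occ f := fun h => by
      obtain ⟨-, j, hj⟩ := mem_occ.1 h
      exact hx.2.1 j hj
    have hocc := occ_update hf (i := i) hx0 hx.2.1
    have hZ' : occ (update f i x) ⊆ insert x Z := by
      rw [hocc]
      exact insert_subset_insert _ ((erase_subset _ _).trans hZ)
    have hZ0' : (0 : Fin (n + 1)) ∉ insert x Z := by
      rw [mem_insert, not_or]
      exact ⟨hx0.symm, hZ0⟩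
    have hcard' : #(insert x Z) + (l.filter (· ∈ D)).length ≤ n := by
      have := card_insert_le x Z
      omega
    have hDn : ∀ j ∈ l, update f i x j ≠ 0 → j ∈ D := by
      intro j hj h
      rw [update_of_ne (by rintro rfl; exact hl.1 hj)] at h
      exact hD' j hj h
    by_cases hfi : f i = 0
    · -- a pigeon without a hole
      have hg : Good l e := by
        rcases hgood with ⟨-, h⟩ | ⟨h, -⟩
        · exact h
        · exact absurd (hei.trans hfi) h
      have hfen : ∀ j ∈ l, e j = update f i x j := by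
        intro j hj
        rw [update_of_ne (by rintro rfl; exact hl.1 hj)]
        exact hfe' j hj
      obtain ⟨g, hg⟩ := ih hl.2 (hf.update hx.2.1) he hZ0' hZ' hcard' hfen hDn hg (by
        intro θ h0 hθ h hh
        rw [mem_insert, not_or] at hθ
        have hxθ : x < θ := by
          rcases lt_trichotomy x θ with h1 | h1 | h1
          · exact h1
          · exact absurd h1.symm hθ.1
          · obtain ⟨j, hj⟩ := hx.2.2 θ (by rw [hfi]; exact Fin.pos_iff_ne_zero.2 h0) h1
            exact absurd (hZ (mem_occ.2 ⟨h0, j, hj⟩)) hθ.2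
        have he0 : f i ∉ occ f := by
          rw [hfi]
          exact fun h => (mem_occ.1 h).1 rfl
        rw [hocc, erase_eq_of_notMem he0, cnt_add (hxθ.le.trans hh)]
        exact hinv θ h0 hθ.2 h hh)
      exact ⟨g, Or.inl ⟨hi, x, hx, hg⟩⟩
    · -- a pigeon with a hole
      obtain ⟨y, hy, hye, hg⟩ : ∃ y, e i < y ∧ (∀ j, e j ≠ y) ∧ Good l (update e i y) := by
        rcases hgood with ⟨h, -⟩ | ⟨-, h⟩
        · exact absurd (hei.symm.trans h) hfi
        · exact h
      have hy0 : y ≠ 0 := (lt_of_le_of_lt (Fin.zero_le _) hy).ne'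
      have hyO : y ∉ occ e := fun h => by
        obtain ⟨-, j, hj⟩ := mem_occ.1 h
        exact hye j hj
      have hocce := occ_update he (i := i) hy0 hye
      have hfen : ∀ j ∈ l, update e i y j = update f i x j := by
        intro j hj
        have hji : j ≠ i := by rintro rfl; exact hl.1 hj
        rw [update_of_ne hji, update_of_ne hji]
        exact hfe' j hj
      have hpf : f i ∈ occ f := mem_occ.2 ⟨hfi, i, rfl⟩
      have hpe : e i ∈ occ e := mem_occ.2 ⟨by rwa [hei], i, rfl⟩
      obtain ⟨g, hg⟩ := ih hl.2 (hf.update hx.2.1) (he.update hye) hZ0' hZ' hcard' hfen hDn hg (by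
        intro θ h0 hθ h hh
        rw [mem_insert, not_or] at hθ
        rw [hocc, hocce, cnt_move hpf hxO hx.1, cnt_move hpe hyO hy, hei]
        rw [hei] at hy hpe
        have h1 := hinv θ h0 hθ.2 h hh
        by_cases h2 : f i ≤ h ∧ h < x
        swap
        · rw [if_neg h2]
          omega
        rw [if_pos h2]
        by_cases h3 : h < y
        · rw [if_pos ⟨h2.1, h3⟩]
          omega
        rw [if_neg (fun h4 => h3 h4.2)]
        rw [not_lt] at h3
        have hθp : θ ≤ f i := by
          by_contra h4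
          rw [not_le] at h4
          obtain ⟨j, hj⟩ := hx.2.2 θ h4 (lt_of_le_of_lt hh h2.2)
          exact hθ.2 (hZ (mem_occ.2 ⟨h0, j, hj⟩))
        have h4 := hinv θ h0 hθ.2 (f i) hθp
        rw [cnt_split h2.1, cnt_split (O := occ e) h2.1] at h4
        have h5 : ({z ∈ occ e | f i < z ∧ z ≤ h} : Finset _) ⊂
            {z ∈ occ f | f i < z ∧ z ≤ h} := by
          refine ⟨?_, ?_⟩
          · intro z hz
            rw [mem_filter] at hz ⊢
            obtain ⟨j, hj⟩ := hx.2.2 z hz.2.1 (lt_of_le_of_lt hz.2.2 h2.2)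
            exact ⟨mem_occ.2 ⟨(mem_occ.1 hz.1).1, j, hj⟩, hz.2⟩
          · intro hsub
            obtain ⟨j, hj⟩ := hx.2.2 y hy (lt_of_le_of_lt h3 h2.2)
            have h6 : y ∈ ({z ∈ occ f | f i < z ∧ z ≤ h} : Finset _) := by
              rw [mem_filter, mem_occ]
              exact ⟨⟨hy0, j, hj⟩, hy, h3⟩
            have h7 := hsub h6
            rw [mem_filter] at h7
            exact hyO h7.1
        have h6 := card_lt_card h5
        omega)
      exact ⟨g, Or.inl ⟨hi, x, hx, hg⟩⟩

end Pool.Agent.T9h90.PM
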