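import Mathlib

/-!
# Polynomial Calculus and perfect matching formulas: the definitions
-/

set_option autoImplicit false

open MvPolynomial

namespace Pool.Agent.T9h90.PM

universe u v

/-- `L = [p₁, …, p_L]` is a Polynomial Calculus refutation of the set `Q` of polynomials: each line
is in `Q`, or is a linear combination of two earlier lines, or is an earlier line multiplied by a
variable; and the last line is `1`. -/
def IsRefutation {E : Type u} {F : Type v} [Field F] (Q : Set (MvPolynomial E F))
    (L : List (MvPolynomial E F)) : Prop :=
  (∀ (i : ℕ) (hi : i < L.length),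
    L[i] ∈ Q ∨
    (∃ (j k : ℕ) (hj : j < i) (hk : k < i) (α β : F), L[i] = C α * L[j] + C β * L[k]) ∨
    ∃ (j : ℕ) (hj : j < i) (x : E), L[i] = X x * L[j]) ∧
  L.getLast? = some 1

/-- The size of a refutation: the total number of monomials, counted over all lines. -/
def size {E : Type u} {F : Type v} [Field F] (L : List (MvPolynomial E F)) : ℕ :=
  (L.map fun p => p.support.card).sum

open Classical in
/-- The perfect matching formula of the graph `G`; the variables are the edges of `G`. -/
noncomputable def PMF (F : Type v) [Field F] {V : Type u} [Fintype V] (G : SimpleGraph V) :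
    Set (MvPolynomial G.edgeSet F) :=
  {p | (∃ e, p = X e ^ 2 - X e) ∨
    (∃ v : V, p = (∑ e : G.edgeSet with v ∈ e.1, X e) - 1) ∨
    ∃ (e f : G.edgeSet) (v : V), e ≠ f ∧ v ∈ e.1 ∧ v ∈ f.1 ∧ p = X e * X f}

end Pool.Agent.T9h90.PM
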