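import Pool.Agent.T9h90.PMOp

/-!
# The twin pigeonhole graphs and their restrictions
-/

set_option autoImplicit false

open Finset Function MvPolynomial

namespace Pool.Agent.T9h90.PM

/-- The holes: `2r` blocks of `4` holes each. -/
abbrev Hol (r : ℕ) := Fin (2 * r) × ZMod 4

/-- The vertices: two copies of the set of pigeons (there is one more pigeon than there are holes)
and of the set of holes. -/
abbrev Vert (r : ℕ) := Bool × (Option (Hol r) ⊕ Hol r)

/-- Names of the edges. -/
abbrev Ed (r : ℕ) := (Bool × Option (Hol r) × Hol r) ⊕ Hol r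

/-- In each copy every pigeon is joined to every hole; the two copies of a hole are joined. -/
def toSym {r : ℕ} : Ed r → Sym2 (Vert r)
  | .inl (c, p, h) => s((c, .inl p), (c, .inr h))
  | .inr h => s((false, .inr h), (true, .inr h))

/-- The twin pigeonhole graph. -/
def Gr (r : ℕ) : SimpleGraph (Vert r) := SimpleGraph.fromEdgeSet (Set.range toSym)

variable {r : ℕ}

theorem toSym_injective : Injective (toSym (r := r)) := by
  rintro (⟨c, p, h⟩ | h) (⟨c', p', h'⟩ | h') he
  · simp only [toSym, Sym2.eq_iff, Prod.mk.injEq, Sum.inl.injEq, Sum.inr.injEq, reduceCtorEq,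
      and_false, or_false] at he
    obtain ⟨⟨rfl, rfl⟩, -, rfl⟩ := he
    rfl
  · simp [toSym] at he
  · simp [toSym] at he
  · simp only [toSym, Sym2.eq_iff, Prod.mk.injEq, Sum.inr.injEq, true_and, Bool.false_eq_true,
      false_and, or_false, reduceCtorEq] at he
    rw [he.1]

theorem toSym_not_diag (e : Ed r) : ¬ (toSym e).IsDiag := by
  rcases e with ⟨c, p, h⟩ | h <;> simp [toSym]

theorem edgeSet_eq : (Gr r).edgeSet = Set.range toSym := by
  rw [Gr, SimpleGraph.edgeSet_fromEdgeSet, sdiff_eq_left, Set.disjoint_left]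
  rintro _ ⟨e, rfl⟩ h
  exact toSym_not_diag e h

/-- The edges and their names. -/
noncomputable def edEquiv (r : ℕ) : Ed r ≃ (Gr r).edgeSet :=
  Equiv.ofBijective (fun e => ⟨toSym e, by rw [edgeSet_eq]; exact ⟨e, rfl⟩⟩)
    ⟨fun a b h => toSym_injective (congrArg Subtype.val h), fun e => by
      obtain ⟨a, ha⟩ := (Set.ext_iff.1 edgeSet_eq _).1 e.2
      exact ⟨a, Subtype.ext ha⟩⟩

theorem edEquiv_apply (e : Ed r) : ((edEquiv r e : (Gr r).edgeSet) : Sym2 (Vert r)) = toSym e := rfl

theorem mem_toSym_pigeon {c : Bool} {p : Option (Hol r)} {e : Ed r} :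
    ((c, .inl p) : Vert r) ∈ toSym e ↔ ∃ h, e = .inl (c, p, h) := by
  rcases e with ⟨c', p', h'⟩ | h'
  · simp only [toSym, Sym2.mem_iff, Prod.mk.injEq, Sum.inl.injEq, reduceCtorEq, and_false, or_false]
    constructor
    · rintro ⟨rfl, rfl⟩
      exact ⟨h', rfl, rfl, rfl⟩
    · rintro ⟨h, rfl, rfl, -⟩
      exact ⟨rfl, rfl⟩
  · simp [toSym]

theorem mem_toSym_hole {c : Bool} {h : Hol r} {e : Ed r} :
    ((c, .inr h) : Vert r) ∈ toSym e ↔ (∃ p, e = .inl (c, p, h)) ∨ e = .inr h := by
  rcases e with ⟨c', p', h'⟩ | h'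
  · simp only [toSym, Sym2.mem_iff, Prod.mk.injEq, Sum.inr.injEq, reduceCtorEq, and_false, or_false,
      false_or, Sum.inl.injEq]
    constructor
    · rintro ⟨rfl, rfl⟩
      exact ⟨p', rfl, rfl, rfl⟩
    · rintro ⟨p, rfl, -, rfl⟩
      exact ⟨rfl, rfl⟩
  · simp only [toSym, Sym2.mem_iff, Prod.mk.injEq, Sum.inr.injEq, reduceCtorEq, exists_const,
      false_or]
    constructor
    · rintro (⟨-, h1⟩ | ⟨-, h1⟩) <;> exact h1.symm
    · rintro rfl
      cases c <;> simp

/-! ### there is no perfect matching -/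

theorem no_perfect (r : ℕ) : ¬ ∃ M : (Gr r).Subgraph, M.IsPerfectMatching := by
  rintro ⟨M, hM, hspan⟩
  have h1 : ∀ p : Option (Hol r), ∃ h : Hol r,
      M.Adj (false, .inl p) (false, .inr h) := by
    intro p
    obtain ⟨w, hw, -⟩ := hM (hspan (false, .inl p))
    have h2 : s(((false, .inl p) : Vert r), w) ∈ (Gr r).edgeSet := M.adj_sub hw
    rw [edgeSet_eq] at h2
    obtain ⟨e, he⟩ := h2
    have h3 : ((false, .inl p) : Vert r) ∈ toSym e := by rw [he]; exact Sym2.mem_mk_left _ _
    obtain ⟨h, rfl⟩ := mem_toSym_pigeon.1 h3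
    refine ⟨h, ?_⟩
    have h4 : w = (false, .inr h) := by
      have h5 : s(((false, .inl p) : Vert r), (false, .inr h)) = s((false, .inl p), w) := he
      rw [Sym2.eq_iff] at h5
      rcases h5 with ⟨-, h5⟩ | ⟨-, h5⟩
      · exact h5.symm
      · simp at h5
    rwa [← h4]
  choose φ hφ using h1
  have hinj : Injective φ := by
    intro p p' hp
    have h2 := hM (hspan (false, .inr (φ p)))
    have h3 := (hφ p).symm
    have h4 := (hφ p').symm
    rw [← hp] at h4
    have := h2.unique h3 h4
    simpa using this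
  have := Fintype.card_le_of_injective φ hinj
  rw [Fintype.card_option] at this
  omega

theorem card_vert (r : ℕ) : Fintype.card (Vert r) = 32 * r + 2 := by
  simp only [Fintype.card_prod, Fintype.card_bool, Fintype.card_sum, Fintype.card_option,
    Fintype.card_fin, ZMod.card]
  ring

/-! ### restrictions -/

/-- A restriction chooses in each block `a` a pigeon `(a, u)` and a shift `s`: the pigeon `(a, b)`,
`b ≠ u`, goes to the hole `(a, b + s)`. -/
abbrev Rho (r : ℕ) := Fin (2 * r) → ZMod 4 × ZMod 4

variable {F : Type*} [Field F]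

/-- The restriction of the variables. -/
noncomputable def sg (F : Type*) [Field F] (ρ : Rho r) :
    Ed r → MvPolynomial (Fin (2 * r + 1) × Fin (2 * r)) F
  | .inl (_, p, h) =>
    if h.2 = (ρ h.1).1 + (ρ h.1).2 then
      match p with
      | none => X (Fin.last _, h.1)
      | some a => if a.2 = (ρ a.1).1 then X (a.1.castSucc, h.1) else 0
    else if p = some (h.1, h.2 - (ρ h.1).2) then 1 else 0
  | .inr h => if h.2 = (ρ h.1).1 + (ρ h.1).2 then 1 - hole F (2 * r + 1) h.1 else 0

theorem sg_values (ρ : Rho r) (e : Ed r) : sg F ρ e = 0 ∨ sg F ρ e = 1 ∨ (∃ p, sg F ρ e = X p) ∨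
    ∃ j, sg F ρ e = 1 - hole F (2 * r + 1) j := by
  rcases e with ⟨c, p, h⟩ | h
  · simp only [sg]
    split_ifs with h1 h2
    · rcases p with _ | a
      · exact Or.inr (Or.inr (Or.inl ⟨_, rfl⟩))
      · simp only
        split_ifs
        · exact Or.inr (Or.inr (Or.inl ⟨_, rfl⟩))
        · exact Or.inl rfl
    · exact Or.inr (Or.inl rfl)
    · exact Or.inl rfl
  · simp only [sg]
    split_ifs
    · exact Or.inr (Or.inr (Or.inr ⟨_, rfl⟩))
    · exact Or.inl rfl

/-- the sum of the edges at a pigeon -/
theorem sum_pigeon (hr : 1 ≤ r) (ρ : Rho r) (c : Bool) (p : Option (Hol r)) :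
    Rl ((∑ h, sg F ρ (.inl (c, p, h))) - 1) = 0 := by
  classical
  rcases p with _ | ⟨a, b⟩
  · have h1 : ∑ h : Hol r, sg F ρ (.inl (c, none, h)) =
        ∑ j : Fin (2 * r), X (Fin.last (2 * r), j) := by
      rw [Fintype.sum_prod_type]
      refine sum_congr rfl fun j _ => ?_
      simp only [sg, reduceCtorEq, if_false]
      rw [sum_ite_eq' univ ((ρ j).1 + (ρ j).2), if_pos (mem_univ _)]
    rw [h1]
    exact Rl_pigeon (by omega) _
  · by_cases hb : b = (ρ a).1
    · have h1 : ∑ h : Hol r, sg F ρ (.inl (c, some (a, b), h)) =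
          ∑ j : Fin (2 * r), X (a.castSucc, j) := by
        rw [Fintype.sum_prod_type]
        refine sum_congr rfl fun j _ => ?_
        simp only [sg, hb, if_true]
        rw [sum_eq_single ((ρ j).1 + (ρ j).2)]
        · rw [if_pos rfl]
        · intro y _ hy
          rw [if_neg hy, if_neg]
          intro h2
          simp only [Option.some.injEq, Prod.mk.injEq] at h2
          obtain ⟨h2, h3⟩ := h2
          subst h2
          exact hy (by rw [h3]; ring)
        · intro h; exact absurd (mem_univ _) h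
      rw [h1]
      exact Rl_pigeon (by omega) _
    · have h1 : ∑ h : Hol r, sg F ρ (.inl (c, some (a, b), h)) = 1 := by
        rw [sum_eq_single ((a, b + (ρ a).2) : Hol r)]
        · simp only [sg]
          rw [if_neg, if_pos]
          · rw [add_sub_cancel_right]
          · intro h; exact hb (add_right_cancel h)
        · rintro ⟨j, y⟩ _ hy
          simp only [sg, if_neg hb]
          split_ifs with h2 h3
          · rfl
          · exfalso
            simp only [Option.some.injEq, Prod.mk.injEq] at h3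
            obtain ⟨h3, h4⟩ := h3
            subst h3
            exact hy (by rw [h4, sub_add_cancel])
          · rfl
        · intro h; exact absurd (mem_univ _) h
      rw [h1, sub_self, map_zero]

/-- the sum of the edges at a hole -/
theorem sum_hole (ρ : Rho r) (c : Bool) (h : Hol r) :
    (∑ p, sg F ρ (.inl (c, p, h))) + sg F ρ (.inr h) - 1 = 0 := by
  classical
  rw [Fintype.sum_option]
  by_cases hh : h.2 = (ρ h.1).1 + (ρ h.1).2
  · simp only [sg, hh, if_true]
    have h1 : ∑ a : Hol r, (if a.2 = (ρ a.1).1 then X (a.1.castSucc, h.1) else 0 :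
        MvPolynomial (Fin (2 * r + 1) × Fin (2 * r)) F) =
        ∑ j : Fin (2 * r), X (j.castSucc, h.1) := by
      rw [Fintype.sum_prod_type]
      refine sum_congr rfl fun j _ => ?_
      simp only
      rw [sum_ite_eq' univ, if_pos (mem_univ _)]
    rw [h1, hole, Fin.sum_univ_castSucc]
    ring
  · simp only [sg, if_neg hh, reduceCtorEq, if_false, zero_add, add_zero]
    simp only [Option.some.injEq]
    rw [sum_ite_eq' univ, if_pos (mem_univ _), sub_self]

end Pool.Agent.T9h90.PM
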