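import Pool.Agent.T9h90.PMBasis
import Pool.Agent.T9h90.PMDefs

/-!
# The reduction operator and its use for Polynomial Calculus
-/

set_option autoImplicit false

open Finset Function MvPolynomial

namespace Pool.Agent.T9h90.PM

variable {N n : ℕ} {F : Type*} [Field F]

open Classical in
/-- The reduction of a position. -/
noncomputable def red (F : Type*) [Field F] (t : Pos N n) : Pos N n →₀ F :=
  if h : PInj t then (ind_mem (F := F) t h).choose else 0

theorem red_supp {t : Pos N n} {s : Pos N n} (hs : s ∈ (red F t).support) :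
    PInj s ∧ (∀ i, s i ≠ 0 → t i ≠ 0) ∧ Good (List.finRange N) s := by
  unfold red at hs
  split_ifs at hs with h
  · exact (ind_mem (F := F) t h).choose_spec.1 s hs
  · simp at hs

theorem ev_red {t : Pos N n} (ht : PInj t) {b : Pos N n} (hb : PInj b)
    (hb' : ∀ i, t i ≠ 0 → b i ≠ 0) : ev (red F t) b = ind F t b := by
  unfold red
  rw [dif_pos ht]
  exact (ind_mem (F := F) t ht).choose_spec.2 b hb hb'

/-! ### monomials -/

/-- No two variables of the monomial are in conflict. -/
def CF (e : Fin N × Fin n →₀ ℕ) : Prop :=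
  ∀ p ∈ e.support, ∀ q ∈ e.support, p.1 = q.1 ∨ p.2 = q.2 → p = q

open Classical in
/-- The position of a monomial. -/
noncomputable def pos (e : Fin N × Fin n →₀ ℕ) : Pos N n := fun i =>
  if h : ∃ j, (i, j) ∈ e.support then h.choose.succ else 0

theorem pos_ne_zero {e : Fin N × Fin n →₀ ℕ} {i : Fin N} :
    pos e i ≠ 0 ↔ ∃ j, (i, j) ∈ e.support := by
  unfold pos
  split_ifs with h
  · exact ⟨fun _ => h, fun _ => Fin.succ_ne_zero _⟩
  · exact ⟨fun h1 => absurd rfl h1, fun h1 => absurd h1 h⟩

theorem pos_spec {e : Fin N × Fin n →₀ ℕ} {i : Fin N} (h : pos e i ≠ 0) :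
    ∃ j, (i, j) ∈ e.support ∧ pos e i = j.succ := by
  have h1 := pos_ne_zero.1 h
  unfold pos
  rw [dif_pos h1]
  exact ⟨_, h1.choose_spec, rfl⟩

theorem pos_eq {e : Fin N × Fin n →₀ ℕ} (he : CF e) {i : Fin N} {j : Fin n}
    (h : (i, j) ∈ e.support) : pos e i = j.succ := by
  obtain ⟨j', h1, h2⟩ := pos_spec (pos_ne_zero.2 ⟨j, h⟩)
  have := he _ h1 _ h (Or.inl rfl)
  rw [h2]
  congr 1
  exact congrArg Prod.snd this

theorem pos_pinj {e : Fin N × Fin n →₀ ℕ} (he : CF e) : PInj (pos e) := by
  intro i i' h h0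
  obtain ⟨j, h1, h2⟩ := pos_spec h0
  obtain ⟨j', h3, h4⟩ := pos_spec (h ▸ h0)
  rw [h2, h4] at h
  have := Fin.succ_injective _ h
  exact congrArg Prod.fst (he _ h1 _ h3 (Or.inr this))

open Classical in
/-- The value of a monomial. -/
noncomputable def val (F : Type*) [Field F] (e : Fin N × Fin n →₀ ℕ) (b : Pos N n) : F :=
  if ∀ p ∈ e.support, b p.1 = p.2.succ then 1 else 0

theorem ind_pos {e : Fin N × Fin n →₀ ℕ} (he : CF e) (b : Pos N n) :
    ind F (pos e) b = val F e b := by
  unfold ind val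
  have : Sub (pos e) b ↔ ∀ p ∈ e.support, b p.1 = p.2.succ := by
    constructor
    · rintro h ⟨i, j⟩ hp
      have := h i (pos_ne_zero.2 ⟨j, hp⟩)
      rw [this]
      exact pos_eq he hp
    · intro h i hi
      obtain ⟨j, h1, h2⟩ := pos_spec hi
      rw [h2]
      exact h _ h1
  simp only [this]

theorem val_of_not_cf {e : Fin N × Fin n →₀ ℕ} (he : ¬ CF e) {b : Pos N n} (hb : PInj b) :
    val F e b = 0 := by
  unfold val
  rw [if_neg]
  intro h
  refine he fun p hp q hq hpq => ?_
  have h1 := h p hp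
  have h2 := h q hq
  rcases hpq with h3 | h3
  · rw [h3, h2] at h1
    exact Prod.ext h3 (Fin.succ_injective _ h1.symm)
  · refine Prod.ext (hb _ _ ?_ ?_) h3
    · rw [h1, h2, h3]
    · rw [h1]
      exact Fin.succ_ne_zero _

open Classical in
/-- The reduction of a monomial. -/
noncomputable def R (F : Type*) [Field F] (e : Fin N × Fin n →₀ ℕ) : Pos N n →₀ F :=
  if CF e then red F (pos e) else 0

theorem R_supp {e : Fin N × Fin n →₀ ℕ} {s : Pos N n} (hs : s ∈ (R F e).support) :
    PInj s ∧ (∀ i, s i ≠ 0 → i ∈ e.support.image Prod.fst) ∧ Good (List.finRange N) s := by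
  unfold R at hs
  split_ifs at hs with h
  · obtain ⟨h1, h2, h3⟩ := red_supp hs
    refine ⟨h1, fun i hi => ?_, h3⟩
    obtain ⟨j, hj⟩ := pos_ne_zero.1 (h2 i hi)
    exact mem_image.2 ⟨_, hj, rfl⟩
  · simp at hs

theorem ev_R {e : Fin N × Fin n →₀ ℕ} {b : Pos N n} (hb : PInj b)
    (hb' : ∀ p ∈ e.support, b p.1 ≠ 0) : ev (R F e) b = val F e b := by
  unfold R
  split_ifs with h
  · rw [ev_red (pos_pinj h) hb, ind_pos h]
    intro i hi
    obtain ⟨j, hj⟩ := pos_ne_zero.1 hi
    exact hb' _ hj
  · rw [map_zero, val_of_not_cf h hb, Pi.zero_apply]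

/-! ### multiplication -/

open Classical in
/-- Multiplication of a position by a variable, followed by the reduction. -/
noncomputable def Lb (F : Type*) [Field F] (i : Fin N) (j : Fin n) (s : Pos N n) :
    Pos N n →₀ F :=
  if s i = 0 ∧ ∀ i', s i' ≠ j.succ then red F (update s i j.succ)
  else if s i = j.succ then red F s else 0

theorem Lb_supp {i : Fin N} {j : Fin n} {s s' : Pos N n} (hs : s' ∈ (Lb F i j s).support) :
    PInj s' ∧ (∀ i', s' i' ≠ 0 → i' = i ∨ s i' ≠ 0) ∧ Good (List.finRange N) s' := by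
  unfold Lb at hs
  split_ifs at hs
  · obtain ⟨h3, h4, h5⟩ := red_supp hs
    refine ⟨h3, fun i' hi' => ?_, h5⟩
    have := h4 i' hi'
    by_cases h : i' = i
    · exact Or.inl h
    · rw [update_of_ne h] at this
      exact Or.inr this
  · obtain ⟨h3, h4, h5⟩ := red_supp hs
    exact ⟨h3, fun i' hi' => Or.inr (h4 i' hi'), h5⟩
  · simp at hs

open Classical in
theorem ev_Lb {i : Fin N} {j : Fin n} {s : Pos N n} (hs : PInj s) {b : Pos N n} (hb : PInj b)
    (hb' : ∀ i', s i' ≠ 0 → b i' ≠ 0) (hbi : b i ≠ 0) :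
    ev (Lb F i j s) b = (if b i = j.succ then 1 else 0) * ind F s b := by
  unfold Lb
  by_cases h1 : s i = 0 ∧ ∀ i', s i' ≠ j.succ
  · rw [if_pos h1, ev_red (hs.update h1.2) hb, ind, ind, sub_update (Fin.succ_ne_zero _)]
    · have h4 : update s i 0 = s := by rw [← h1.1, update_eq_self]
      rw [h4]
      by_cases h2 : b i = j.succ
      · simp [h2]
      · simp [h2]
    · intro i' hi'
      by_cases h : i' = i
      · rw [h]; exact hbi
      · rw [update_of_ne h] at hi'
        exact hb' i' hi'
  · rw [if_neg h1]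
    by_cases h2 : s i = j.succ
    · rw [if_pos h2, ev_red hs hb hb']
      by_cases h3 : b i = j.succ
      · rw [if_pos h3, one_mul]
      · rw [if_neg h3, zero_mul, ind, if_neg]
        intro h
        have := h i (by rw [h2]; exact Fin.succ_ne_zero _)
        rw [h2] at this
        exact h3 this
    · rw [if_neg h2, map_zero, Pi.zero_apply]
      by_cases h3 : b i = j.succ
      · rw [if_pos h3, one_mul, ind, if_neg]
        intro h
        by_cases h4 : s i = 0
        · have h5 : ∃ i', s i' = j.succ := by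
            by_contra hcon
            push Not at hcon
            exact h1 ⟨h4, hcon⟩
          obtain ⟨i', hi'⟩ := h5
          have h6 := h i' (by rw [hi']; exact Fin.succ_ne_zero _)
          rw [hi', ← h3] at h6
          have h7 := hb i' i h6 (by rw [h6]; exact hbi)
          rw [h7, h4] at hi'
          exact Fin.succ_ne_zero _ hi'.symm
        · have h5 := h i h4
          rw [h3] at h5
          exact h2 h5.symm
      · rw [if_neg h3, zero_mul]

/-- Multiplication by a variable, followed by the reduction. -/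
noncomputable def Lop (i : Fin N) (j : Fin n) : (Pos N n →₀ F) →ₗ[F] (Pos N n →₀ F) :=
  Finsupp.linearCombination F (Lb F i j)

open Classical in
theorem ev_Lop {D : Finset (Fin N)} {i : Fin N} {j : Fin n} {w : Pos N n →₀ F}
    (hw : ∀ s ∈ w.support, PInj s ∧ ∀ i', s i' ≠ 0 → i' ∈ D) {b : Pos N n} (hb : PInj b)
    (hb' : ∀ i' ∈ D, b i' ≠ 0) (hbi : b i ≠ 0) :
    ev (Lop i j w) b = (if b i = j.succ then 1 else 0) * ev w b := by
  have h1 : Lop i j w = ∑ s ∈ w.support, w s • Lb F i j s := rfl
  have h2 : ev w b = ∑ s ∈ w.support, w s * ind F s b := by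
    rw [ev, Finsupp.linearCombination_apply, Finsupp.sum, Finset.sum_apply]
    rfl
  rw [h1, map_sum, Finset.sum_apply, h2, mul_sum]
  refine sum_congr rfl fun s hs => ?_
  rw [map_smul, Pi.smul_apply, ev_Lb (hw s hs).1 hb (fun i' hi' => hb' i' ((hw s hs).2 i' hi')) hbi,
    smul_eq_mul]
  ring

theorem Lop_supp {i : Fin N} {j : Fin n} {w : Pos N n →₀ F} {s' : Pos N n}
    (hs' : s' ∈ (Lop i j w).support) : ∃ s ∈ w.support, s' ∈ (Lb F i j s).support := by
  classical
  have h1 : Lop i j w = ∑ s ∈ w.support, w s • Lb F i j s := rfl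
  rw [h1] at hs'
  have h2 := Finsupp.support_finsetSum hs'
  rw [mem_biUnion] at h2
  obtain ⟨s, hs, h3⟩ := h2
  exact ⟨s, hs, Finsupp.support_smul h3⟩

/-- **The main property of the reduction.** -/
theorem R_mul {d : ℕ} (hd : 2 * (d + 1) ≤ n) {e : Fin N × Fin n →₀ ℕ} {H : Finset (Fin n)}
    (hH : #H ≤ d) (he : ∀ p ∈ e.support, p.2 ∈ H) (i : Fin N) (j : Fin n) :
    R F (e + Finsupp.single (i, j) 1) = Lop i j (R F e) := by
  classical
  have hsupp : (e + Finsupp.single (i, j) 1).support = insert (i, j) e.support := by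
    ext p
    rw [Finsupp.mem_support_iff, mem_insert, Finsupp.mem_support_iff, Finsupp.add_apply,
      Finsupp.single_apply]
    by_cases h : (i, j) = p
    · simp [h]
    · rw [if_neg h, add_zero]
      simp [Ne.symm h]
  by_cases hcf : CF e
  swap
  · have h1 : ¬ CF (e + Finsupp.single (i, j) 1) := by
      intro h
      refine hcf fun p hp q hq => h p ?_ q ?_
      · rw [hsupp]; exact mem_insert_of_mem hp
      · rw [hsupp]; exact mem_insert_of_mem hq
    rw [R, if_neg h1, R, if_neg hcf, map_zero]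
  -- the set of pigeons
  set D : Finset (Fin N) := insert i (e.support.image Prod.fst) with hDdef
  have hcard : #D ≤ d + 1 := by
    refine (card_insert_le _ _).trans (Nat.succ_le_succ ?_)
    have h1 : #(e.support.image Prod.snd) = #e.support := by
      refine card_image_of_injOn fun p hp q hq h => hcf p hp q hq (Or.inr h)
    refine (card_image_le.trans (h1.ge.trans (card_le_card ?_))).trans hH
    intro x hx
    obtain ⟨p, hp, rfl⟩ := mem_image.1 hx
    exact he p hp
  rw [← sub_eq_zero]
  refine unique (D := D) (by omega) ?_ ?_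
  · intro s hs
    rcases mem_union.1 (Finsupp.support_sub hs) with h | h
    · obtain ⟨h1, h2, h3⟩ := R_supp h
      refine mem_goodSet.2 ⟨h1, fun i' hi' => ?_, h3⟩
      have := h2 i' hi'
      rw [hsupp, image_insert] at this
      exact this
    · obtain ⟨s0, hs0, h⟩ := Lop_supp h
      obtain ⟨h1, h2, h3⟩ := Lb_supp h
      refine mem_goodSet.2 ⟨h1, fun i' hi' => ?_, h3⟩
      rcases h2 i' hi' with rfl | h4
      · exact mem_insert_self _ _
      · exact mem_insert_of_mem ((R_supp hs0).2.1 i' h4)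
  · intro b hb
    obtain ⟨hb1, hb2⟩ := mem_full.1 hb
    have hbi : b i ≠ 0 := (hb2 i).2 (mem_insert_self _ _)
    have hbe : ∀ p ∈ e.support, b p.1 ≠ 0 := fun p hp =>
      (hb2 p.1).2 (mem_insert_of_mem (mem_image_of_mem _ hp))
    rw [map_sub, Pi.sub_apply, ev_R hb1, ev_Lop (D := e.support.image Prod.fst) _ hb1 _ hbi,
      ev_R hb1 hbe, sub_eq_zero]
    · unfold val
      rw [hsupp]
      simp only [mem_insert, forall_eq_or_imp]
      by_cases h1 : b i = j.succ
      · simp [h1]
      · simp [h1]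
    · intro s hs
      exact ⟨(R_supp hs).1, (R_supp hs).2.1⟩
    · intro i' hi'
      exact (hb2 i').2 (mem_insert_of_mem hi')
    · intro p hp
      rw [hsupp, mem_insert] at hp
      rcases hp with rfl | hp
      · exact hbi
      · exact hbe p hp

/-! ### polynomials -/

/-- The reduction of a polynomial. -/
noncomputable def Rl : MvPolynomial (Fin N × Fin n) F →ₗ[F] (Pos N n →₀ F) :=
  (basisMonomials (Fin N × Fin n) F).constr F (R F)

theorem Rl_monomial (e : Fin N × Fin n →₀ ℕ) (c : F) : Rl (monomial e c) = c • R F e := by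
  have h1 : monomial e c = c • (basisMonomials (Fin N × Fin n) F) e := by
    rw [coe_basisMonomials, smul_monomial, smul_eq_mul, mul_one]
  rw [h1, map_smul, Rl, Module.Basis.constr_basis]

/-- The polynomials for which multiplication is compatible with the reduction. -/
noncomputable def Nice (N n : ℕ) (F : Type*) [Field F] :
    Submodule F (MvPolynomial (Fin N × Fin n) F) where
  carrier := {q | ∀ i j, Rl (X (i, j) * q) = Lop i j (Rl q)}
  add_mem' := by
    intro p q hp hq i j
    rw [mul_add, map_add, map_add, map_add, hp i j, hq i j]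
  zero_mem' := by
    intro i j
    rw [mul_zero, map_zero, map_zero]
  smul_mem' := by
    intro c q hq i j
    rw [mul_smul_comm, map_smul, map_smul, map_smul, hq i j]

theorem mem_nice {q : MvPolynomial (Fin N × Fin n) F} :
    q ∈ Nice N n F ↔ ∀ i j, Rl (X (i, j) * q) = Lop i j (Rl q) := Iff.rfl

theorem supported_nice {d : ℕ} (hd : 2 * (d + 1) ≤ n) {H : Finset (Fin n)} (hH : #H ≤ d)
    {q : MvPolynomial (Fin N × Fin n) F}
    (hq : q ∈ supported F {p : Fin N × Fin n | p.2 ∈ H}) : q ∈ Nice N n F := by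
  classical
  rw [← support_sum_monomial_coeff q]
  refine Submodule.sum_mem _ fun e he i j => ?_
  rw [X, monomial_mul, one_mul, Rl_monomial, Rl_monomial, map_smul, add_comm,
    R_mul hd hH (fun p hp => ?_) i j]
  rw [mem_supported] at hq
  exact hq ((mem_vars_iff_mem_support _).2 ⟨e, he, hp⟩)

/-! ### the axioms -/

theorem R_congr {e e' : Fin N × Fin n →₀ ℕ} (h : e.support = e'.support) : R F e = R F e' := by
  have h1 : CF e ↔ CF e' := by unfold CF; rw [h]
  have h2 : pos e = pos e' := by unfold pos; rw [h]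
  unfold R
  rw [h2]
  by_cases h3 : CF e
  · rw [if_pos h3, if_pos (h1.1 h3)]
  · rw [if_neg h3, if_neg (fun h4 => h3 (h1.2 h4))]

theorem Rl_X (p : Fin N × Fin n) : Rl (X p : MvPolynomial (Fin N × Fin n) F) =
    R F (Finsupp.single p 1) := by
  rw [X, Rl_monomial, one_smul]

theorem Rl_X_sq (p : Fin N × Fin n) :
    Rl (X p * X p : MvPolynomial (Fin N × Fin n) F) = Rl (X p) := by
  rw [Rl_X, X, monomial_mul, mul_one, Rl_monomial, one_smul]
  refine R_congr ?_
  rw [← Finsupp.single_add, Finsupp.support_single _ (by decide),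
    Finsupp.support_single _ (by decide)]

theorem Rl_X_mul_X {p q : Fin N × Fin n} (hpq : p ≠ q) (h : p.1 = q.1 ∨ p.2 = q.2) :
    Rl (X p * X q : MvPolynomial (Fin N × Fin n) F) = 0 := by
  classical
  rw [X, X, monomial_mul, mul_one, Rl_monomial, one_smul, R, if_neg]
  intro hcf
  refine hpq (hcf p ?_ q ?_ h)
  · rw [Finsupp.mem_support_iff, Finsupp.add_apply, Finsupp.single_eq_same]
    omega
  · rw [Finsupp.mem_support_iff, Finsupp.add_apply, Finsupp.single_eq_same]
    omega

theorem Rl_one_ne_zero : Rl (1 : MvPolynomial (Fin N × Fin n) F) ≠ 0 := by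
  have h1 : (1 : MvPolynomial (Fin N × Fin n) F) = monomial 0 1 := rfl
  rw [h1, Rl_monomial, one_smul]
  intro h2
  have h3 := ev_R (F := F) (e := (0 : Fin N × Fin n →₀ ℕ)) (b := fun _ => 0)
    (fun _ _ _ h => absurd rfl h) (by simp)
  rw [h2, map_zero, Pi.zero_apply, val, if_pos (by simp)] at h3
  exact zero_ne_one h3

theorem Rl_pigeon (hn : 2 ≤ n) (i : Fin N) :
    Rl ((∑ j, X (i, j)) - 1 : MvPolynomial (Fin N × Fin n) F) = 0 := by
  classical
  have h1 : (1 : MvPolynomial (Fin N × Fin n) F) = monomial 0 1 := rfl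
  rw [map_sub, map_sum, h1, Rl_monomial, one_smul]
  simp only [Rl_X]
  refine unique (D := {i}) (by simpa using hn) ?_ ?_
  · intro s hs
    rcases mem_union.1 (Finsupp.support_sub hs) with h | h
    · have h2 := Finsupp.support_finsetSum h
      rw [mem_biUnion] at h2
      obtain ⟨j, -, h3⟩ := h2
      obtain ⟨h4, h5, h6⟩ := R_supp h3
      refine mem_goodSet.2 ⟨h4, fun i' hi' => ?_, h6⟩
      have := h5 i' hi'
      rw [Finsupp.support_single _ one_ne_zero, image_singleton] at this
      exact this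
    · obtain ⟨h4, h5, h6⟩ := R_supp h
      refine mem_goodSet.2 ⟨h4, fun i' hi' => ?_, h6⟩
      have := h5 i' hi'
      simp at this
  · intro b hb
    obtain ⟨hb1, hb2⟩ := mem_full.1 hb
    have hbi : b i ≠ 0 := (hb2 i).2 (mem_singleton_self i)
    rw [map_sub, Pi.sub_apply, map_sum, Finset.sum_apply, sub_eq_zero, ev_R hb1 (by simp)]
    have h2 : ∀ j : Fin n, ev (R F (Finsupp.single (i, j) 1)) b =
        if b i = j.succ then (1 : F) else 0 := by
      intro j
      rw [ev_R hb1, val]
      · rw [Finsupp.support_single _ one_ne_zero]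
        simp
      · intro p hp
        rw [Finsupp.support_single _ one_ne_zero, mem_singleton] at hp
        rw [hp]
        exact hbi
    rw [sum_congr rfl fun j _ => h2 j, val, if_pos (by simp)]
    obtain ⟨j0, hj0⟩ := Fin.exists_succ_eq.2 hbi
    rw [sum_eq_single j0]
    · rw [if_pos hj0.symm]
    · intro j _ hj
      rw [if_neg]
      intro h3
      rw [← hj0] at h3
      exact hj (Fin.succ_injective _ h3).symm
    · intro h; exact absurd (mem_univ _) h

/-- The sum of the variables of a hole. -/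
noncomputable def hole (F : Type*) [Field F] (N : ℕ) {n : ℕ} (j : Fin n) :
    MvPolynomial (Fin N × Fin n) F := ∑ i, X (i, j)

theorem Rl_X_mul_hole (i : Fin N) (j : Fin n) :
    Rl (X (i, j) * hole F N j) = Rl (X (i, j) : MvPolynomial (Fin N × Fin n) F) := by
  rw [hole, mul_sum, map_sum, sum_eq_single i]
  · exact Rl_X_sq _
  · intro i' _ hi'
    exact Rl_X_mul_X (fun h => hi' (congrArg Prod.fst h).symm) (Or.inr rfl)
  · intro h; exact absurd (mem_univ _) h

theorem Rl_hole_sq (j : Fin n) : Rl (hole F N j * hole F N j) = Rl (hole F N j) := by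
  conv_lhs => rw [hole, sum_mul, map_sum]
  conv_rhs => rw [hole, map_sum]
  exact sum_congr rfl fun i _ => Rl_X_mul_hole i j

/-! ### soundness -/

theorem sound {E : Type*} {d : ℕ} (hd : 2 * (d + 1) ≤ n)
    (σ : E → MvPolynomial (Fin N × Fin n) F)
    (hσ : ∀ e, σ e = 0 ∨ σ e = 1 ∨ (∃ p, σ e = X p) ∨ ∃ j, σ e = 1 - hole F N j)
    (Q : Set (MvPolynomial E F)) (hQ : ∀ q ∈ Q, Rl (aeval σ q) = 0)
    (L : List (MvPolynomial E F)) (hL : IsRefutation Q L)
    (hlow : ∀ p ∈ L, ∀ μ ∈ p.support, aeval σ (monomial μ (1 : F)) = 0 ∨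
      ∃ H : Finset (Fin n), #H ≤ d ∧
        aeval σ (monomial μ (1 : F)) ∈ supported F {p : Fin N × Fin n | p.2 ∈ H}) : False := by
  have hnice : ∀ p ∈ L, aeval σ p ∈ Nice N n F := by
    intro p hp
    rw [← support_sum_monomial_coeff p, map_sum]
    refine Submodule.sum_mem _ fun μ hμ => ?_
    have h1 : monomial μ (coeff μ p) = coeff μ p • monomial μ (1 : F) := by
      rw [smul_monomial, smul_eq_mul, mul_one]
    rw [h1, map_smul]
    refine Submodule.smul_mem _ _ ?_
    rcases hlow p hp μ hμ with h | ⟨H, hH, h⟩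
    · rw [h]
      exact Submodule.zero_mem _
    · exact supported_nice hd hH h
  have hall : ∀ (i : ℕ) (hi : i < L.length), Rl (aeval σ L[i]) = 0 := by
    intro i
    induction i using Nat.strong_induction_on with
    | _ i ih =>
      intro hi
      rcases hL.1 i hi with h | ⟨j, k, hj, hk, α, β, h⟩ | ⟨j, hj, x, h⟩
      · exact hQ _ h
      · rw [h, ← smul_eq_C_mul, ← smul_eq_C_mul, map_add, map_smul, map_smul, map_add, map_smul,
          map_smul, ih j hj, ih k hk, smul_zero, smul_zero, add_zero]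
      · have h1 := ih j hj (hj.trans hi)
        have h2 := mem_nice.1 (hnice L[j] (List.getElem_mem _))
        rw [h, map_mul, aeval_X]
        rcases hσ x with h3 | h3 | ⟨p, h3⟩ | ⟨j', h3⟩
        · rw [h3, zero_mul, map_zero]
        · rw [h3, one_mul, h1]
        · rw [h3, h2 p.1 p.2, h1, map_zero]
        · rw [h3, sub_mul, one_mul, map_sub, h1, hole, sum_mul, map_sum, zero_sub, neg_eq_zero]
          refine sum_eq_zero fun i _ => ?_
          rw [h2 i j', h1, map_zero]
  have hlast := hL.2
  rw [List.getLast?_eq_getElem?, List.getElem?_eq_some_iff] at hlast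
  obtain ⟨hlt, h1⟩ := hlast
  have h2 := hall _ hlt
  rw [h1, map_one] at h2
  exact Rl_one_ne_zero h2

end Pool.Agent.T9h90.PM
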